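import Mathlib

/-!
# Coefficients of `(c + s X)^J (c X - s)^(l-J)`

For `c² + s² = 1` the squares satisfy `C(l,J) · coeff_m² ≤ C(l,m)` (entries of an orthogonal matrix
in the Bombieri norm).
-/

set_option autoImplicit false

namespace Pool.Agent.HHalfB

open Polynomial

/-- The rotated monomial. -/
noncomputable def rot (c s : ℝ) (l J : ℕ) : ℝ[X] :=
  (C c + C s * X) ^ J * (C c * X - C s) ^ (l - J)

/-- Homogenised substitution `∑_m p_m A^m B^(l-m)`. -/
noncomputable def hom (l : ℕ) (p A B : ℝ[X]) : ℝ[X] :=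
  ∑ m ∈ Finset.range (l + 1), C (p.coeff m) * A ^ m * B ^ (l - m)

theorem hom_one (A B : ℝ[X]) : hom 0 1 A B = 1 := by
  simp [hom]

theorem hom_mul {l : ℕ} {p : ℝ[X]} (hp : p.natDegree ≤ l) (a b : ℝ) (A B : ℝ[X]) :
    hom (l + 1) ((C a + C b * X) * p) A B = (C a * B + C b * A) * hom l p A B := by
  have hc : ∀ m, ((C a + C b * X) * p).coeff (m + 1) = a * p.coeff (m + 1) + b * p.coeff m := by
    intro m
    rw [add_mul, coeff_add, coeff_C_mul, mul_assoc, coeff_C_mul, coeff_X_mul]
  have hc0 : ((C a + C b * X) * p).coeff 0 = a * p.coeff 0 := by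
    rw [add_mul, coeff_add, coeff_C_mul, mul_assoc, coeff_C_mul]
    simp
  have htop : p.coeff (l + 1) = 0 := coeff_eq_zero_of_natDegree_lt (by omega)
  have e1 : hom (l + 1) ((C a + C b * X) * p) A B =
      (∑ m ∈ Finset.range (l + 1), C (a * p.coeff (m + 1) + b * p.coeff m) * A ^ (m + 1) *
        B ^ (l - m)) + C (a * p.coeff 0) * B ^ (l + 1) := by
    unfold hom
    rw [Finset.sum_range_succ', hc0]
    congr 1
    · refine Finset.sum_congr rfl fun m _ => ?_
      rw [hc m, Nat.add_sub_add_right]
    · simp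
  have e2 : C a * B * hom l p A B =
      (∑ m ∈ Finset.range (l + 1), C (a * p.coeff (m + 1)) * A ^ (m + 1) * B ^ (l - m)) +
        C (a * p.coeff 0) * B ^ (l + 1) := by
    unfold hom
    have h1 : C a * B * ∑ m ∈ Finset.range (l + 1), C (p.coeff m) * A ^ m * B ^ (l - m) =
        ∑ m ∈ Finset.range (l + 1), C (a * p.coeff m) * A ^ m * B ^ (l + 1 - m) := by
      rw [Finset.mul_sum]
      refine Finset.sum_congr rfl fun m hm => ?_
      have hm' : l + 1 - m = (l - m) + 1 := by
        have := Finset.mem_range.1 hm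
        omega
      rw [hm', pow_succ, C_mul]
      ring
    rw [h1, Finset.sum_range_succ' _ l, Finset.sum_range_succ _ l, htop]
    simp only [mul_zero, map_zero, zero_mul, add_zero, pow_zero, mul_one, Nat.sub_zero]
    congr 1
    refine Finset.sum_congr rfl fun m _ => ?_
    rw [Nat.add_sub_add_right]
  have e3 : C b * A * hom l p A B =
      ∑ m ∈ Finset.range (l + 1), C (b * p.coeff m) * A ^ (m + 1) * B ^ (l - m) := by
    unfold hom
    rw [Finset.mul_sum]
    refine Finset.sum_congr rfl fun m _ => ?_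
    rw [C_mul]
    ring
  rw [add_mul (C a * B), e1, e2, e3, add_right_comm, ← Finset.sum_add_distrib]
  congr 1
  refine Finset.sum_congr rfl fun m _ => ?_
  rw [C_add]
  ring

theorem rot_natDegree (c s : ℝ) (J K : ℕ) :
    ((C c + C s * X : ℝ[X]) ^ J * (C c * X - C s) ^ K).natDegree ≤ J + K := by
  have h1 : (C c + C s * X : ℝ[X]).natDegree ≤ 1 := by
    refine (natDegree_add_le _ _).trans ?_
    simp only [natDegree_C]
    exact max_le (by omega) ((natDegree_C_mul_le _ _).trans natDegree_X_le)
  have h2 : (C c * X - C s : ℝ[X]).natDegree ≤ 1 := by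
    refine (natDegree_sub_le _ _).trans ?_
    simp only [natDegree_C]
    exact max_le ((natDegree_C_mul_le _ _).trans natDegree_X_le) (by omega)
  refine natDegree_mul_le.trans ?_
  have h3 := natDegree_pow_le (p := (C c + C s * X : ℝ[X])) (n := J)
  have h4 := natDegree_pow_le (p := (C c * X - C s : ℝ[X])) (n := K)
  have h5 := Nat.mul_le_mul_left J h1
  have h6 := Nat.mul_le_mul_left K h2
  omega

theorem hom_rot (c s : ℝ) (A B : ℝ[X]) (J K : ℕ) :
    hom (J + K) ((C c + C s * X) ^ J * (C c * X - C s) ^ K) A B =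
      (C c * B + C s * A) ^ J * (C c * A - C s * B) ^ K := by
  induction K with
  | zero =>
    induction J with
    | zero => simp [hom]
    | succ J ih =>
      have h := hom_mul (l := J) (p := (C c + C s * X) ^ J) (by
        have := rot_natDegree c s J 0
        simpa using this) c s A B
      rw [add_zero, pow_zero, mul_one] at ih ⊢
      rw [pow_succ', h, ih, pow_zero]
      ring
  | succ K ih =>
    have h := hom_mul (l := J + K) (p := (C c + C s * X) ^ J * (C c * X - C s) ^ K)
      (rot_natDegree c s J K) (-s) c A B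
    have e : (C c + C s * X : ℝ[X]) ^ J * (C c * X - C s) ^ (K + 1) =
        (C (-s) + C c * X) * ((C c + C s * X) ^ J * (C c * X - C s) ^ K) := by
      rw [C_neg]
      ring
    rw [← add_assoc, e, h, ih, C_neg]
    ring

/-- Applying the substitution twice gives back the monomial. -/
theorem rot_sum {c s : ℝ} (h : c ^ 2 + s ^ 2 = 1) {l J : ℕ} (hJ : J ≤ l) :
    ∑ m ∈ Finset.range (l + 1), (rot c s l J).coeff m * (rot c s l m).coeff J = 1 := by
  obtain ⟨K, rfl⟩ := Nat.exists_eq_add_of_le hJ
  have e : J + K - J = K := by omega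
  have h1 := hom_rot c s (C c + C s * X) (C c * X - C s) J K
  have hC : (C c : ℝ[X]) ^ 2 + C s ^ 2 = 1 := by
    rw [← C_pow, ← C_pow, ← C_add, h, C_1]
  have e1 : C c * (C c * X - C s) + C s * (C c + C s * X) = (X : ℝ[X]) := by
    linear_combination X * hC
  have e2 : C c * (C c + C s * X) - C s * (C c * X - C s) = (1 : ℝ[X]) := by
    linear_combination hC
  rw [e1, e2, one_pow, mul_one] at h1
  have h2 := congrArg (fun q : ℝ[X] => q.coeff J) h1
  simp only [hom, finsetSum_coeff, coeff_X_pow, if_true] at h2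
  rw [← h2]
  refine Finset.sum_congr rfl fun m _ => ?_
  rw [mul_assoc, coeff_C_mul, rot, rot, e]

theorem coeff_left (c s : ℝ) (J i : ℕ) :
    ((C c + C s * X : ℝ[X]) ^ J).coeff i = s ^ i * c ^ (J - i) * (J.choose i : ℝ) := by
  have h : (C c + C s * X : ℝ[X]) ^ J = ((X + C c) ^ J).comp (C s * X) := by
    simp [add_comm]
  rw [h, comp_C_mul_X_coeff, coeff_X_add_C_pow]
  ring

theorem coeff_right (c s : ℝ) (K j : ℕ) :
    ((C c * X - C s : ℝ[X]) ^ K).coeff j = c ^ j * (-s) ^ (K - j) * (K.choose j : ℝ) := by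
  have h : (C c * X - C s : ℝ[X]) ^ K = ((X + C (-s)) ^ K).comp (C c * X) := by
    simp [sub_eq_add_neg]
  rw [h, comp_C_mul_X_coeff, coeff_X_add_C_pow]
  ring

theorem multi (L a b : ℕ) :
    L.choose a * (L - a).choose b = L.choose b * (L - b).choose a := by
  rcases le_or_gt (a + b) L with h | h
  · have h1 := Nat.choose_mul (n := L) (k := a + b) (s := a) (by omega)
    have h2 := Nat.choose_mul (n := L) (k := a + b) (s := b) (by omega)
    have e1 : a + b - a = b := by omega
    have e2 : a + b - b = a := by omega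
    rw [e1] at h1
    rw [e2] at h2
    rw [← h1, ← h2]
    congr 1
    have : (a + b).choose a = (a + b).choose b := by
      rw [← Nat.choose_symm (show a ≤ a + b by omega), e1]
    exact this
  · rcases le_or_gt a L with h1 | h1
    · rcases le_or_gt b L with h2 | h2
      · rw [Nat.choose_eq_zero_of_lt (show L - a < b by omega),
          Nat.choose_eq_zero_of_lt (show L - b < a by omega)]
        simp
      · rw [Nat.choose_eq_zero_of_lt (show L - a < b by omega), Nat.choose_eq_zero_of_lt h2]
        simp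
    · rw [Nat.choose_eq_zero_of_lt h1]
      rcases le_or_gt b L with h2 | h2
      · rw [Nat.choose_eq_zero_of_lt (show L - b < a by omega)]
        simp
      · rw [Nat.choose_eq_zero_of_lt h2]
        simp

theorem tri {l J m i : ℕ} (hJ : J ≤ l) (hm : m ≤ l) (hiJ : i ≤ J) (him : i ≤ m) :
    l.choose J * (J.choose i * (l - J).choose (m - i)) =
      l.choose m * (m.choose i * (l - m).choose (J - i)) := by
  have h1 := Nat.choose_mul (n := l) (k := J) (s := i) hiJ
  have h2 := Nat.choose_mul (n := l) (k := m) (s := i) him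
  have h3 := multi (l - i) (J - i) (m - i)
  have e1 : l - i - (J - i) = l - J := by omega
  have e2 : l - i - (m - i) = l - m := by omega
  rw [e1, e2] at h3
  rw [← mul_assoc, ← mul_assoc, h1, h2, mul_assoc, mul_assoc, h3]

/-- Symmetry of the matrix. -/
theorem rot_symm (c s : ℝ) {l J m : ℕ} (hJ : J ≤ l) (hm : m ≤ l) :
    (l.choose J : ℝ) * (rot c s l J).coeff m = (l.choose m : ℝ) * (rot c s l m).coeff J := by
  have key : ∀ {J m : ℕ}, J ≤ l → m ≤ l → (l.choose J : ℝ) * (rot c s l J).coeff m =
      ∑ i ∈ Finset.range (min J m + 1), ((l.choose J * (J.choose i * (l - J).choose (m - i)) : ℕ) : ℝ) *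
        (s ^ i * c ^ (J + m - 2 * i) * (-s) ^ (l + i - (J + m))) := by
    intro J m hJ hm
    rw [rot, coeff_mul, Finset.Nat.sum_antidiagonal_eq_sum_range_succ_mk, Finset.mul_sum]
    have hsub : Finset.range (min J m + 1) ⊆ Finset.range (m + 1) := by
      intro i hi
      rw [Finset.mem_range] at hi ⊢
      omega
    rw [← Finset.sum_subset hsub]
    · refine Finset.sum_congr rfl fun i hi => ?_
      have hi' : i ≤ J ∧ i ≤ m := by
        have := Finset.mem_range.1 hi
        omega
      rw [coeff_left, coeff_right]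
      have e1 : J + m - 2 * i = (J - i) + (m - i) := by omega
      have e2 : l - J - (m - i) = l + i - (J + m) := by omega
      rw [e1, pow_add, ← e2]
      push_cast
      ring
    · intro i hi hi2
      have h1 : J < i := by
        rw [Finset.mem_range] at hi hi2
        omega
      rw [coeff_left, Nat.choose_eq_zero_of_lt h1]
      simp
  rw [key hJ hm, key hm hJ, min_comm]
  refine Finset.sum_congr rfl fun i hi => ?_
  have hi' : i ≤ J ∧ i ≤ m := by
    have := Finset.mem_range.1 hi
    omega
  rw [tri hJ hm hi'.1 hi'.2, add_comm J m]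

/-- `C(l,J) D² ≤ C(l,m)`. -/
theorem rot_bound {c s : ℝ} (h : c ^ 2 + s ^ 2 = 1) {l J m : ℕ} (hJ : J ≤ l) (hm : m ≤ l) :
    (l.choose J : ℝ) * (rot c s l J).coeff m ^ 2 ≤ (l.choose m : ℝ) := by
  have hnn : ∀ i ∈ Finset.range (l + 1), 0 ≤ (rot c s l J).coeff i * (rot c s l i).coeff J := by
    intro i hi
    have hi' : i ≤ l := by
      have := Finset.mem_range.1 hi
      omega
    have hs := rot_symm c s hJ hi'
    have p1 : (0:ℝ) < (l.choose i : ℝ) := by exact_mod_cast Nat.choose_pos hi'
    have p2 : (0:ℝ) ≤ (l.choose J : ℝ) := Nat.cast_nonneg _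
    have h1 : (l.choose i : ℝ) * ((rot c s l J).coeff i * (rot c s l i).coeff J) =
        (l.choose J : ℝ) * (rot c s l J).coeff i ^ 2 := by
      linear_combination (-(rot c s l J).coeff i) * hs
    have h2 : 0 ≤ (l.choose i : ℝ) * ((rot c s l J).coeff i * (rot c s l i).coeff J) := by
      rw [h1]
      exact mul_nonneg p2 (sq_nonneg _)
    exact nonneg_of_mul_nonneg_right h2 p1
  have hle := Finset.single_le_sum hnn (Finset.mem_range.2 (by omega : m < l + 1))
  rw [rot_sum h hJ] at hle
  have hs := rot_symm c s hJ hm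
  have p1 : (0:ℝ) ≤ (l.choose m : ℝ) := Nat.cast_nonneg _
  have h1 : (l.choose J : ℝ) * (rot c s l J).coeff m ^ 2 =
      (l.choose m : ℝ) * ((rot c s l J).coeff m * (rot c s l m).coeff J) := by
    linear_combination ((rot c s l J).coeff m) * hs
  rw [h1]
  calc (l.choose m : ℝ) * ((rot c s l J).coeff m * (rot c s l m).coeff J)
      ≤ (l.choose m : ℝ) * 1 := mul_le_mul_of_nonneg_left hle p1
    _ = _ := mul_one _

end Pool.Agent.HHalfB
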