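import Pool.Agent.HHalf.REnd
import Pool.Agent.HHalfB.BRot

/-!
# Bound of `H_m((X+1)^J (X-1)^(l-J))` on `[-1,1]` for all `l`, `m`, `J`
-/

set_option autoImplicit false

namespace Pool.Agent.HHalfB

open Polynomial Set Pool.Agent.HHalf

/-- Sonin's function is monotone on `[-1,1]`. -/
theorem sonin_right {y : ℝ[X]} {α a lam : ℝ} (hlam : 0 < lam)
    (hm : ∀ t ∈ Icc (-1:ℝ) 1, 0 ≤ (α - 1) * t - a)
    (h : (X ^ 2 - 1) * derivative (derivative y) + (C α * X - C a) * derivative y = C lam * y)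
    {x : ℝ} (hx : x ∈ Icc (-1:ℝ) 1) :
    (y.eval x) ^ 2 ≤ (y.eval 1) ^ 2 := by
  have hode : ∀ t : ℝ, (t ^ 2 - 1) * (derivative (derivative y)).eval t +
      (α * t - a) * (derivative y).eval t = lam * y.eval t := by
    intro t
    have := congrArg (fun q : ℝ[X] => q.eval t) h
    simpa using this
  set f : ℝ → ℝ := fun t => (y.eval t) ^ 2 + (1 - t ^ 2) * ((derivative y).eval t) ^ 2 / lam with hf
  have hder : ∀ t : ℝ, HasDerivAt f
      (2 * ((derivative y).eval t) ^ 2 / lam * ((α - 1) * t - a)) t := by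
    intro t
    have h1 : HasDerivAt (fun t : ℝ => (y.eval t) ^ 2)
        (2 * y.eval t * (derivative y).eval t) t := by
      have := (y.hasDerivAt t).fun_pow 2
      simpa using this
    have h2 : HasDerivAt (fun t : ℝ => ((derivative y).eval t) ^ 2)
        (2 * (derivative y).eval t * (derivative (derivative y)).eval t) t := by
      have := ((derivative y).hasDerivAt t).fun_pow 2
      simpa using this
    have h3 : HasDerivAt (fun t : ℝ => 1 - t ^ 2) (-(2 * t)) t := by
      have := ((hasDerivAt_id t).pow 2).const_sub 1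
      simpa using this
    have h4 := h1.add ((h3.mul h2).div_const lam)
    refine h4.congr_deriv ?_
    have h5 := hode t
    have h6 : y.eval t = ((t ^ 2 - 1) * (derivative (derivative y)).eval t +
      (α * t - a) * (derivative y).eval t) / lam := by
      rw [h5]; field_simp
    rw [h6]
    field_simp
    ring
  have hcont : Continuous f := continuous_iff_continuousAt.2 fun t => (hder t).continuousAt
  have hdiff : ∀ t, DifferentiableAt ℝ f t := fun t => (hder t).differentiableAt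
  have hfx : (y.eval x) ^ 2 ≤ f x := by
    have : 0 ≤ (1 - x ^ 2) * ((derivative y).eval x) ^ 2 / lam := by
      refine div_nonneg (mul_nonneg ?_ (sq_nonneg _)) hlam.le
      nlinarith [hx.1, hx.2]
    simp only [hf]
    linarith
  have hmono : MonotoneOn f (Icc x 1) := by
    refine monotoneOn_of_deriv_nonneg (convex_Icc x 1) hcont.continuousOn
      (fun t _ => (hdiff t).differentiableWithinAt) fun t ht => ?_
    rw [interior_Icc] at ht
    rw [(hder t).deriv]
    refine mul_nonneg (div_nonneg (mul_nonneg (by norm_num) (sq_nonneg _)) hlam.le) ?_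
    exact hm t ⟨hx.1.trans ht.1.le, ht.2.le⟩
  have h1 := hmono (left_mem_Icc.2 hx.2) (right_mem_Icc.2 hx.2) hx.2
  refine hfx.trans (h1.trans (le_of_eq ?_))
  simp [hf]

/-- Reflection of `bb`. -/
theorem bb_refl (l J : ℕ) (hJ : J ≤ l) :
    (bb ℝ l J).comp (-X) = C ((-1) ^ l) * bb ℝ l (l - J) := by
  obtain ⟨K, rfl⟩ := Nat.exists_eq_add_of_le hJ
  have e1 : J + K - J = K := by omega
  have e2 : J + K - K = J := by omega
  unfold bb
  rw [e1, e2]
  simp only [mul_comp, pow_comp, add_comp, sub_comp, X_comp, one_comp]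
  have h1 : (-X + 1 : ℝ[X]) = C (-1) * (X - 1) := by
    rw [C_neg, C_1]; ring
  have h2 : (-X - 1 : ℝ[X]) = C (-1) * (X + 1) := by
    rw [C_neg, C_1]; ring
  rw [h1, h2, mul_pow, mul_pow, ← C_pow, ← C_pow, pow_add, C_mul]
  ring

theorem hasse_refl (m l J : ℕ) (hJ : J ≤ l) (x : ℝ) :
    |(hasseDeriv m (bb ℝ l J)).eval (-x)| = |(hasseDeriv m (bb ℝ l (l - J))).eval x| := by
  have h1 : taylor x ((bb ℝ l J).comp (-X)) = (taylor (-x) (bb ℝ l J)).comp (-X) := by
    simp only [taylor_apply, comp_assoc]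
    congr 1
    simp only [add_comp, neg_comp, X_comp, C_comp]
    rw [C_neg]
    ring
  have h2 : ((taylor (-x) (bb ℝ l J)).comp (-X)).coeff m =
      (-1) ^ m * (taylor (-x) (bb ℝ l J)).coeff m := by
    have h3 : (-X : ℝ[X]) = C (-1) * X := by rw [C_neg, C_1]; ring
    rw [h3, comp_C_mul_X_coeff]
    ring
  rw [bb_refl l J hJ] at h1
  have h4 := congrArg (fun q : ℝ[X] => q.coeff m) h1
  simp only [h2] at h4
  have h5 : taylor x (C ((-1) ^ l) * bb ℝ l (l - J)) = C ((-1) ^ l) * taylor x (bb ℝ l (l - J)) := by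
    simp [taylor_apply]
  rw [h5, coeff_C_mul] at h4
  rw [← taylor_coeff, ← taylor_coeff]
  have h6 := congrArg abs h4
  rw [abs_mul, abs_mul, abs_pow, abs_pow, abs_neg, abs_one, one_pow, one_pow, one_mul,
    one_mul] at h6
  exact h6.symm

/-- `J ≥ l - m`, `l > 2m`. -/
theorem bb_right {l J m : ℕ} (hJ : J ≤ l) (hl : 2 * m < l) (hJm : l ≤ J + m) {x : ℝ}
    (hx : x ∈ Icc (-1:ℝ) 1) :
    |(hasseDeriv m (bb ℝ l J)).eval x| ≤ 2 ^ (l - m) * (J.choose (l - m) : ℝ) := by
  have hf : (0 : ℝ) < (m.factorial : ℝ) := by exact_mod_cast m.factorial_pos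
  have key : ∀ t : ℝ, (derivative^[m] (bb ℝ l J)).eval t =
      (m.factorial : ℝ) * (hasseDeriv m (bb ℝ l J)).eval t := by
    intro t
    have h := congrArg (fun g : ℝ[X] → ℝ[X] => (g (bb ℝ l J)).eval t)
      (factorial_smul_hasseDeriv (R := ℝ) m)
    simp only [LinearMap.smul_apply] at h
    rw [← h]
    simp
  have hode := bb_ode hJ m
  have hode' : (X ^ 2 - 1) * derivative (derivative (derivative^[m] (bb ℝ l J))) +
      (C (2 * (m : ℝ) + 2 - l) * X - C ((l : ℝ) - 2 * J)) *
        derivative (derivative^[m] (bb ℝ l J)) =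
      C (((m : ℝ) + 1) * ((l : ℝ) - m)) * derivative^[m] (bb ℝ l J) := by
    rw [Function.iterate_succ_apply', Function.iterate_succ_apply'] at hode
    exact hode
  have hlm : 2 * (m : ℝ) + 1 ≤ l := by exact_mod_cast hl
  have hJm' : (l : ℝ) ≤ J + m := by exact_mod_cast hJm
  have h1 : (0 : ℝ) < ((m : ℝ) + 1) * ((l : ℝ) - m) := by
    have h0 : (0 : ℝ) ≤ m := Nat.cast_nonneg m
    have : (0:ℝ) < (l : ℝ) - m := by linarith
    positivity
  have h3 := sonin_right h1 (fun t ht => by nlinarith [ht.1, ht.2]) hode' hx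
  rw [key x, key 1, mul_pow, mul_pow] at h3
  have h4 := le_of_mul_le_mul_left h3 (by positivity)
  have h5 := sq_le_sq.1 h4
  refine h5.trans (le_of_eq ?_)
  rw [bb_one ℝ hJ (by omega), abs_mul, Nat.abs_cast, abs_pow]
  norm_num
  ring

theorem choose_half {n r s : ℕ} (hrs : r ≤ s) (hs : s ≤ n / 2) : n.choose r ≤ n.choose s := by
  induction s, hrs using Nat.le_induction with
  | base => exact le_rfl
  | succ s h ih =>
    exact (ih (by omega)).trans (Nat.choose_le_succ_of_lt_half_left (by omega))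

/-- The middle case. -/
theorem bb_middle {l J m : ℕ} (hJ : J ≤ l) (hm : m ≤ J) (hJm : J + m ≤ l) {x : ℝ}
    (hx : x ∈ Icc (-1:ℝ) 1) :
    |(hasseDeriv m (bb ℝ l J)).eval x| ≤ 2 ^ (l - m) := by
  have hml : m ≤ l := by omega
  rcases eq_or_lt_of_le hx.2 with h1 | h1
  · rw [h1, bb_one ℝ hJ hml, abs_mul, Nat.abs_cast, abs_pow]
    have hc : (J.choose (l - m) : ℝ) ≤ 1 := by
      rcases eq_or_lt_of_le (show J ≤ l - m by omega) with h2 | h2
      · rw [h2]; simp
      · rw [Nat.choose_eq_zero_of_lt h2]; simp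
    have h3 : (0:ℝ) < 2 ^ (l - m) := by positivity
    have h4 : |(2:ℝ)| = 2 := by norm_num
    rw [h4]
    nlinarith
  rcases eq_or_lt_of_le hx.1 with h2 | h2
  · rw [← h2, bb_neg_one ℝ hJ hml, abs_mul, Nat.abs_cast, abs_pow]
    have hc : ((l - J).choose (l - m) : ℝ) ≤ 1 := by
      rcases eq_or_lt_of_le (show l - J ≤ l - m by omega) with h2 | h2
      · rw [h2]; simp
      · rw [Nat.choose_eq_zero_of_lt h2]; simp
    have h3 : (0:ℝ) < 2 ^ (l - m) := by positivity
    have h4 : |(-2:ℝ)| = 2 := by norm_num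
    rw [h4]
    nlinarith
  set c := Real.sqrt ((1 + x) / 2) with hc
  set s := Real.sqrt ((1 - x) / 2) with hs
  have hc2 : c ^ 2 = (1 + x) / 2 := Real.sq_sqrt (by linarith)
  have hs2 : s ^ 2 = (1 - x) / 2 := Real.sq_sqrt (by linarith)
  have hcp : 0 < c := Real.sqrt_pos.2 (by linarith)
  have hsp : 0 < s := Real.sqrt_pos.2 (by linarith)
  have hcs : c ^ 2 + s ^ 2 = 1 := by rw [hc2, hs2]; ring
  have hc1 : c ≤ 1 := by nlinarith [sq_nonneg s]
  have hs1 : s ≤ 1 := by nlinarith [sq_nonneg c]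
  -- the coefficient
  have hcoef : (2 * c * s) ^ m * (hasseDeriv m (bb ℝ l J)).eval x =
      (2 * c) ^ J * (2 * s) ^ (l - J) * (rot c s l J).coeff m := by
    rw [← taylor_coeff]
    have e : (taylor x (bb ℝ l J)).comp (C (2 * c * s) * X) =
        C ((2 * c) ^ J * (2 * s) ^ (l - J)) * rot c s l J := by
      have a1 : (C x + 1 : ℝ[X]) = C (2 * c ^ 2) := by
        rw [← C_1, ← C_add, hc2]; congr 1; ring
      have a2 : (C x - 1 : ℝ[X]) = -C (2 * s ^ 2) := by
        rw [← C_1, ← C_sub, hs2, ← C_neg]; congr 1; ring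
      have b1 : (C (2 * c * s) * X + C x + 1 : ℝ[X]) = C (2 * c) * (C c + C s * X) := by
        rw [add_assoc, a1]
        simp only [C_mul, C_pow]
        ring
      have b2 : (C (2 * c * s) * X + C x - 1 : ℝ[X]) = C (2 * s) * (C c * X - C s) := by
        rw [add_sub_assoc, a2]
        simp only [C_mul, C_pow]
        ring
      simp only [taylor_apply, bb, rot, mul_comp, pow_comp, add_comp, sub_comp, X_comp, one_comp,
        C_comp]
      rw [b1, b2, mul_pow (C (2 * c)), mul_pow (C (2 * s)), C_mul (a := (2 * c) ^ J), C_pow, C_pow]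
      ring
    have e2 := congrArg (fun q : ℝ[X] => q.coeff m) e
    simp only [comp_C_mul_X_coeff, coeff_C_mul] at e2
    linarith
  have hb := rot_bound hcs hJ hml
  have hch : (l.choose m : ℝ) ≤ (l.choose J : ℝ) := by
    have : l.choose m ≤ l.choose J := by
      rcases le_or_gt J (l / 2) with h3 | h3
      · exact choose_half hm h3
      · rw [← Nat.choose_symm hJ]
        exact choose_half (by omega) (by omega)
    exact_mod_cast this
  have hD : |(rot c s l J).coeff m| ≤ 1 := by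
    have p1 : (0:ℝ) < (l.choose J : ℝ) := by exact_mod_cast Nat.choose_pos hJ
    have h3 : (l.choose J : ℝ) * (rot c s l J).coeff m ^ 2 ≤ (l.choose J : ℝ) * 1 := by
      rw [mul_one]; exact hb.trans hch
    have h4 := le_of_mul_le_mul_left h3 p1
    exact (sq_le_one_iff_abs_le_one _).1 h4
  have hpos : 0 < (2 * c * s) ^ m := by positivity
  have h5 : (2 * c * s) ^ m * |(hasseDeriv m (bb ℝ l J)).eval x| ≤
      (2 * c * s) ^ m * 2 ^ (l - m) := by
    have e3 : (2 * c * s) ^ m * |(hasseDeriv m (bb ℝ l J)).eval x| =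
        (2 * c) ^ J * (2 * s) ^ (l - J) * |(rot c s l J).coeff m| := by
      have := congrArg abs hcoef
      have hq : 0 < (2 * c) ^ J * (2 * s) ^ (l - J) := by positivity
      rw [abs_mul, abs_mul _ ((rot c s l J).coeff m), abs_of_pos hpos, abs_of_pos hq] at this
      exact this
    rw [e3]
    have e4 : (2 * c) ^ J * (2 * s) ^ (l - J) =
        (2 * c * s) ^ m * 2 ^ (l - m) * (c ^ (J - m) * s ^ (l - J - m)) := by
      obtain ⟨a, ha⟩ : ∃ a, J = m + a := ⟨J - m, by omega⟩
      obtain ⟨b, hb'⟩ : ∃ b, l = m + a + (m + b) := ⟨l - J - m, by omega⟩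
      have f1 : l - J = m + b := by omega
      have f2 : J - m = a := by omega
      have f3 : l - J - m = b := by omega
      have f4 : l - m = a + (m + b) := by omega
      rw [f3, f1, f2, f4, ha]
      simp only [mul_pow, pow_add]
      ring
    rw [e4]
    have p1 : c ^ (J - m) ≤ 1 := pow_le_one₀ hcp.le hc1
    have p2 : s ^ (l - J - m) ≤ 1 := pow_le_one₀ hsp.le hs1
    have p3 : c ^ (J - m) * s ^ (l - J - m) * |(rot c s l J).coeff m| ≤ 1 := by
      have q1 : c ^ (J - m) * s ^ (l - J - m) ≤ 1 := mul_le_one₀ p1 (by positivity) p2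
      exact mul_le_one₀ q1 (abs_nonneg _) hD
    have p4 : 0 ≤ (2 * c * s) ^ m * 2 ^ (l - m) := by positivity
    calc (2 * c * s) ^ m * 2 ^ (l - m) * (c ^ (J - m) * s ^ (l - J - m)) *
          |(rot c s l J).coeff m|
        = (2 * c * s) ^ m * 2 ^ (l - m) *
          (c ^ (J - m) * s ^ (l - J - m) * |(rot c s l J).coeff m|) := by ring
      _ ≤ (2 * c * s) ^ m * 2 ^ (l - m) * 1 := mul_le_mul_of_nonneg_left p3 p4
      _ = _ := mul_one _
  exact le_of_mul_le_mul_left h5 hpos

/-- `V(J) = max(1, C(J,e), C(l-J,e))`. -/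
noncomputable def Vm (l e J : ℕ) : ℝ :=
  max 1 (max (J.choose e : ℝ) ((l - J).choose e : ℝ))

theorem bb_all {l J m : ℕ} (hJ : J ≤ l) (hm : m ≤ l) {x : ℝ} (hx : x ∈ Icc (-1:ℝ) 1) :
    ‖(hasseDeriv m (bb ℂ l J)).eval (x : ℂ)‖ ≤ 2 ^ (l - m) * Vm l (l - m) J := by
  have h2 : (0:ℝ) < 2 ^ (l - m) := by positivity
  rcases le_or_gt l (2 * m) with h | h
  · refine (bb_bound hJ hm h hx).trans ?_
    exact mul_le_mul_of_nonneg_left (le_max_right _ _) h2.le
  · rw [hasse_bb_ofReal, Complex.norm_real, Real.norm_eq_abs]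
    rcases le_or_gt l (J + m) with h3 | h3
    · refine (bb_right hJ h h3 hx).trans ?_
      exact mul_le_mul_of_nonneg_left ((le_max_left _ _).trans (le_max_right _ _)) h2.le
    · rcases le_or_gt J m with h4 | h4
      · have hx' : -x ∈ Icc (-1:ℝ) 1 := ⟨by linarith [hx.2], by linarith [hx.1]⟩
        have h5 := bb_right (l := l) (J := l - J) (m := m) (by omega) h (by omega) hx'
        have h6 := hasse_refl m l (l - J) (by omega) x
        have e : l - (l - J) = J := by omega
        rw [e] at h6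
        rw [← h6]
        refine h5.trans ?_
        exact mul_le_mul_of_nonneg_left ((le_max_right _ _).trans (le_max_right _ _)) h2.le
      · refine (bb_middle hJ h4.le h3.le hx).trans ?_
        have : (1:ℝ) ≤ Vm l (l - m) J := le_max_left _ _
        nlinarith

/-- Bound on `[-1, 1]` of a mixture. -/
theorem mid_all {β : Type*} (S : Finset β) (a : β → ℂ) (J : β → ℕ)
    {n m : ℕ} (hJ : ∀ b ∈ S, J b ≤ n) (hm : m ≤ n) {x : ℝ} (hx : x ∈ Icc (-1:ℝ) 1) :
    ‖(hasseDeriv m (∑ b ∈ S, C (a b) * bb ℂ n (J b))).eval (x : ℂ)‖ ≤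
      2 ^ (n - m) * ∑ b ∈ S, ‖a b‖ * Vm n (n - m) (J b) := by
  rw [rend_sum S a J n m (x : ℂ), Finset.mul_sum]
  refine (norm_sum_le _ _).trans (Finset.sum_le_sum (fun b hb => ?_))
  rw [norm_mul]
  have h1 := bb_all (hJ b hb) hm hx
  calc ‖a b‖ * ‖(hasseDeriv m (bb ℂ n (J b))).eval (x : ℂ)‖
      ≤ ‖a b‖ * (2 ^ (n - m) * Vm n (n - m) (J b)) :=
        mul_le_mul_of_nonneg_left h1 (norm_nonneg _)
    _ = _ := by ring

end Pool.Agent.HHalfB
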