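import Pool.Agent.HHalf.VPair
import Pool.Agent.HHalfB.BMid

/-!
# Two nodes of different pairs: the inequality with general bounds
-/

set_option autoImplicit false

namespace Pool.Agent.HHalfB

open Polynomial Set Complex ComplexConjugate Pool.Agent.HHalf

private theorem az0' (z z' : ℂ) : az z z' 0 = (1 + z) * (1 + z') / 4 := by simp [az]

private theorem az1' (z z' : ℂ) :
    az z z' 1 = ((1 - z) * (1 + z') + (1 + z) * (1 - z')) / 4 := by simp [az]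

private theorem az2' (z z' : ℂ) : az z z' 2 = (1 - z) * (1 - z') / 4 := by simp [az]

theorem core_gen {P0 P1 P2 R0 R1 R2 q0 q2 g0 g1 g2 g3 g4 : ℝ} (hP0 : 0 ≤ P0)
    (hP1 : 0 ≤ P1) (hP2 : 0 ≤ P2) (hR0 : 0 ≤ R0) (hR1 : 0 ≤ R1) (hR2 : 0 ≤ R2)
    (hs : P0 + P1 + P2 = 1) (hs' : R0 + R1 + R2 = 1) (hg2 : 0 ≤ g2) (i0 : q0 ≤ g0)
    (i1 : q0 ≤ 2 * g1) (i2 : q0 + q2 ≤ 2 * g2) (i3 : q2 ≤ 2 * g3) (i4 : q2 ≤ g4) :
    ((P0 + R0) * q0 + (P2 + R2) * q2) / 2 ≤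
      P0 * R0 * g0 + (P0 * R1 + P1 * R0) * g1 + (P0 * R2 + P2 * R0) * g2 +
        P1 * R1 * g2 + (P1 * R2 + P2 * R1) * g3 + P2 * R2 * g4 := by
  have hsum : (P0 + R0) * q0 + (P2 + R2) * q2 =
      P0 * R0 * (2 * q0) + (P0 * R1 + P1 * R0) * q0 + (P0 * R2 + P2 * R0) * (q0 + q2) +
        (P1 * R2 + P2 * R1) * q2 + P2 * R2 * (2 * q2) := by
    have h1 : (P0 + R0) * q0 + (P2 + R2) * q2 =
        P0 * (R0 + R1 + R2) * q0 + R0 * (P0 + P1 + P2) * q0 +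
          (P2 * (R0 + R1 + R2) * q2 + R2 * (P0 + P1 + P2) * q2) := by
      rw [hs, hs']
      ring
    rw [h1]
    ring
  have t0 := mul_le_mul_of_nonneg_left i0 (mul_nonneg hP0 hR0)
  have t1 := mul_le_mul_of_nonneg_left i1 (add_nonneg (mul_nonneg hP0 hR1) (mul_nonneg hP1 hR0))
  have t2 := mul_le_mul_of_nonneg_left i2 (add_nonneg (mul_nonneg hP0 hR2) (mul_nonneg hP2 hR0))
  have t3 := mul_le_mul_of_nonneg_left i3 (add_nonneg (mul_nonneg hP1 hR2) (mul_nonneg hP2 hR1))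
  have t4 := mul_le_mul_of_nonneg_left i4 (mul_nonneg hP2 hR2)
  have t5 := mul_nonneg (mul_nonneg hP1 hR1) hg2
  linarith

/-- The five inequalities for the parameter `τ`. -/
def Five (M G : ℕ → ℝ) (τ : ℝ) : Prop :=
  0 < τ ∧ M 0 + τ * M 1 ≤ G 0 ∧ M 0 + τ * M 1 ≤ 2 * G 1 ∧
  (M 0 + τ * M 1) + (M 2 + M 1 / τ) ≤ 2 * G 2 ∧ M 2 + M 1 / τ ≤ 2 * G 3 ∧ M 2 + M 1 / τ ≤ G 4

theorem pair_gen {M G : ℕ → ℝ} {τ : ℝ} (hM : ∀ s, 0 ≤ M s) (h : Five M G τ) {z z' : ℂ}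
    (hz : ‖z‖ ≤ 1) (hz' : ‖z'‖ ≤ 1) :
    ∑ p ∈ Finset.range 3, ‖az z z' p‖ * M p ≤
      ∑ p ∈ Finset.range 3, ∑ q ∈ Finset.range 3, pz z p * pz z' q * G (p + q) := by
  obtain ⟨hτ, i0, i1, i2, i3, i4⟩ := h
  have hp : ∀ p, 0 ≤ pz z p := pz_nonneg hz
  have hp' : ∀ p, 0 ≤ pz z' p := pz_nonneg hz'
  have hs := pz_sum z
  have hs' := pz_sum z'
  have e0 : ∀ z : ℂ, pz z 0 = (‖1 + z‖ / 2) ^ 2 := by
    intro z
    have h1 : pz z 0 = normSq (1 + z) / 4 := by simp [pz]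
    rw [h1, Complex.normSq_eq_norm_sq]
    ring
  have e2 : ∀ z : ℂ, pz z 2 = (‖1 - z‖ / 2) ^ 2 := by
    intro z
    have h1 : pz z 2 = normSq (1 - z) / 4 := by simp [pz]
    rw [h1, Complex.normSq_eq_norm_sq]
    ring
  have n0 : ‖az z z' 0‖ = (‖1 + z‖ / 2) * (‖1 + z'‖ / 2) := by
    rw [az0', norm_div, norm_mul]
    norm_num
    ring
  have n1 : ‖az z z' 1‖ ≤ (‖1 - z‖ / 2) * (‖1 + z'‖ / 2) + (‖1 + z‖ / 2) * (‖1 - z'‖ / 2) := by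
    rw [az1', norm_div]
    have h1 := norm_add_le ((1 - z) * (1 + z')) ((1 + z) * (1 - z'))
    rw [norm_mul, norm_mul] at h1
    have h2 : ‖(4 : ℂ)‖ = 4 := by norm_num
    rw [h2]
    linarith
  have n2 : ‖az z z' 2‖ = (‖1 - z‖ / 2) * (‖1 - z'‖ / 2) := by
    rw [az2', norm_div, norm_mul]
    norm_num
    ring
  set a0 := ‖1 + z‖ / 2 with ha0
  set a2 := ‖1 - z‖ / 2 with ha2
  set b0 := ‖1 + z'‖ / 2 with hb0
  set b2 := ‖1 - z'‖ / 2 with hb2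
  have hM0 : 0 ≤ M 0 := hM 0
  have hM1 : 0 ≤ M 1 := hM 1
  have hM2 : 0 ≤ M 2 := hM 2
  have k1 : 2 * (a2 * b0) ≤ a2 ^ 2 / τ + τ * b0 ^ 2 := by
    have h1 : 0 ≤ (a2 - τ * b0) ^ 2 / τ := by positivity
    have h2 : (a2 - τ * b0) ^ 2 / τ = a2 ^ 2 / τ + τ * b0 ^ 2 - 2 * (a2 * b0) := by
      field_simp
      ring
    linarith
  have k2 : 2 * (a0 * b2) ≤ τ * a0 ^ 2 + b2 ^ 2 / τ := by
    have h1 : 0 ≤ (b2 - τ * a0) ^ 2 / τ := by positivity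
    have h2 : (b2 - τ * a0) ^ 2 / τ = b2 ^ 2 / τ + τ * a0 ^ 2 - 2 * (a0 * b2) := by
      field_simp
      ring
    linarith
  have hL : 2 * ∑ p ∈ Finset.range 3, ‖az z z' p‖ * M p ≤
      (a0 ^ 2 + b0 ^ 2) * (M 0 + τ * M 1) + (a2 ^ 2 + b2 ^ 2) * (M 2 + M 1 / τ) := by
    simp only [Finset.sum_range_succ, Finset.sum_range_zero, zero_add]
    rw [n0, n2]
    have h1 : ‖az z z' 1‖ * M 1 ≤ (a2 * b0 + a0 * b2) * M 1 := mul_le_mul_of_nonneg_right n1 hM1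
    have h2 : 2 * ((a2 * b0 + a0 * b2) * M 1) ≤
        (a2 ^ 2 / τ + τ * b0 ^ 2 + (τ * a0 ^ 2 + b2 ^ 2 / τ)) * M 1 := by
      nlinarith [mul_le_mul_of_nonneg_right (add_le_add k1 k2) hM1]
    have h3 : 2 * (a0 * b0 * M 0) ≤ (a0 ^ 2 + b0 ^ 2) * M 0 := by
      nlinarith [mul_nonneg (sq_nonneg (a0 - b0)) hM0]
    have h4 : 2 * (a2 * b2 * M 2) ≤ (a2 ^ 2 + b2 ^ 2) * M 2 := by
      nlinarith [mul_nonneg (sq_nonneg (a2 - b2)) hM2]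
    have h5 : (a2 ^ 2 / τ + τ * b0 ^ 2 + (τ * a0 ^ 2 + b2 ^ 2 / τ)) * M 1 =
        (a0 ^ 2 + b0 ^ 2) * (τ * M 1) + (a2 ^ 2 + b2 ^ 2) * (M 1 / τ) := by
      field_simp
      ring
    rw [h5] at h2
    have h6 : (2 : ℝ) * (a0 * b0 * M 0 + ‖az z z' 1‖ * M 1 + a2 * b2 * M 2) =
        2 * (a0 * b0 * M 0) + 2 * (‖az z z' 1‖ * M 1) + 2 * (a2 * b2 * M 2) := by ring
    rw [h6]
    nlinarith [h1, h2, h3, h4]
  have hg2 : 0 ≤ G 2 := by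
    have h1 : 0 ≤ τ * M 1 := mul_nonneg hτ.le hM1
    have h2 : 0 ≤ M 1 / τ := div_nonneg hM1 hτ.le
    linarith
  rw [← e0, ← e0, ← e2, ← e2] at hL
  have hR := core_gen (hp 0) (hp 1) (hp 2) (hp' 0) (hp' 1) (hp' 2) hs hs' hg2 i0 i1 i2 i3 i4
  have hfin : ∑ p ∈ Finset.range 3, ∑ q ∈ Finset.range 3, pz z p * pz z' q * G (p + q) =
      pz z 0 * pz z' 0 * G 0 + (pz z 0 * pz z' 1 + pz z 1 * pz z' 0) * G 1 +
        (pz z 0 * pz z' 2 + pz z 2 * pz z' 0) * G 2 + pz z 1 * pz z' 1 * G 2 +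
        (pz z 1 * pz z' 2 + pz z 2 * pz z' 1) * G 3 + pz z 2 * pz z' 2 * G 4 := by
    simp only [Finset.sum_range_succ, Finset.sum_range_zero, zero_add]
    norm_num
    ring
  rw [hfin]
  linarith

/-- Reflection of the five inequalities. -/
theorem Five.refl {M G : ℕ → ℝ} {τ : ℝ} (h : Five M G τ) {M' G' : ℕ → ℝ}
    (hM : ∀ s ≤ 2, M s = M' (2 - s)) (hG : ∀ s ≤ 4, G s = G' (4 - s)) : Five M' G' τ⁻¹ := by
  obtain ⟨h0, h1, h2, h3, h4, h5⟩ := h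
  rw [hM 0 (by norm_num), hM 1 (by norm_num), hG 0 (by norm_num)] at h1
  rw [hM 0 (by norm_num), hM 1 (by norm_num), hG 1 (by norm_num)] at h2
  rw [hM 0 (by norm_num), hM 1 (by norm_num), hM 2 (by norm_num), hG 2 (by norm_num)] at h3
  rw [hM 2 (by norm_num), hM 1 (by norm_num), hG 3 (by norm_num)] at h4
  rw [hM 2 (by norm_num), hM 1 (by norm_num), hG 4 (by norm_num)] at h5
  norm_num at h1 h2 h3 h4 h5
  refine ⟨inv_pos.mpr h0, ?_, ?_, ?_, ?_, ?_⟩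
  · rw [inv_mul_eq_div]; exact h5
  · rw [inv_mul_eq_div]; exact h4
  · rw [inv_mul_eq_div, div_inv_eq_mul, mul_comm (M' 1) τ]; linarith
  · rw [div_inv_eq_mul, mul_comm (M' 1) τ]; exact h2
  · rw [div_inv_eq_mul, mul_comm (M' 1) τ]; exact h1

end Pool.Agent.HHalfB
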