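import Pool.Agent.HHalfB.BT1
import Pool.Agent.HHalfB.BPair

/-!
# Values of binomial coefficients and of `Vm`
-/

set_option autoImplicit false

namespace Pool.Agent.HHalfB

open Pool.Agent.HHalf

theorem ch_step (e s : ℕ) :
    ((e + s + 1).choose e : ℝ) * ((s : ℝ) + 1) = ((e : ℝ) + s + 1) * ((e + s).choose e : ℝ) := by
  have h := Nat.choose_mul_succ_eq (e + s) e
  have h2 : e + s + 1 - e = s + 1 := by omega
  rw [h2] at h
  have h3 : (((e + s).choose e * (e + s + 1) : ℕ) : ℝ) = (((e + s + 1).choose e * (s + 1) : ℕ) : ℝ) :=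
    congrArg _ h
  push_cast at h3
  linarith

theorem ch0 (e : ℕ) : (e.choose e : ℝ) = 1 := by
  rw [Nat.choose_self, Nat.cast_one]

theorem ch1 (e : ℕ) : ((e + 1).choose e : ℝ) = (e : ℝ) + 1 := by
  have h := ch_step e 0
  simp only [add_zero, Nat.choose_self, Nat.cast_zero, zero_add, Nat.cast_one, mul_one] at h
  exact h

theorem ch2 (e : ℕ) : ((e + 2).choose e : ℝ) = ((e : ℝ) + 1) * (e + 2) / 2 := by
  have h := ch_step e 1
  rw [ch1] at h
  push_cast at h
  have h' : ((e + 1 + 1).choose e : ℝ) = ((e + 2).choose e : ℝ) := rfl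
  rw [h'] at h
  linarith

theorem ch3 (e : ℕ) :
    ((e + 3).choose e : ℝ) = ((e : ℝ) + 1) * (e + 2) * (e + 3) / 6 := by
  have h := ch_step e 2
  rw [ch2] at h
  push_cast at h
  have h' : ((e + 2 + 1).choose e : ℝ) = ((e + 3).choose e : ℝ) := rfl
  rw [h'] at h
  linarith

theorem ch4 (e : ℕ) :
    ((e + 4).choose e : ℝ) = ((e : ℝ) + 1) * (e + 2) * (e + 3) * (e + 4) / 24 := by
  have h := ch_step e 3
  rw [ch3] at h
  push_cast at h
  have h' : ((e + 3 + 1).choose e : ℝ) = ((e + 4).choose e : ℝ) := rfl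
  rw [h'] at h
  linarith

theorem ch5 (e : ℕ) :
    ((e + 5).choose e : ℝ) = ((e : ℝ) + 1) * (e + 2) * (e + 3) * (e + 4) * (e + 5) / 120 := by
  have h := ch_step e 4
  rw [ch4] at h
  push_cast at h
  have h' : ((e + 4 + 1).choose e : ℝ) = ((e + 5).choose e : ℝ) := rfl
  rw [h'] at h
  linarith

theorem ch_mono (k : ℕ) {a b : ℕ} (h : a ≤ b) : (a.choose k : ℝ) ≤ (b.choose k : ℝ) := by
  exact_mod_cast Nat.choose_le_choose k h

theorem vm_right {l e j : ℕ} (h1 : e ≤ j) (h2 : l - j < e) : Vm l e j = (j.choose e : ℝ) := by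
  unfold Vm
  rw [Nat.choose_eq_zero_of_lt h2]
  have h3 : (1:ℝ) ≤ (j.choose e : ℝ) := by exact_mod_cast Nat.choose_pos h1
  rw [Nat.cast_zero, max_eq_left (zero_le_one.trans h3), max_eq_right h3]

theorem vm_left {l e j : ℕ} (h1 : j < e) (h2 : e ≤ l - j) : Vm l e j = ((l - j).choose e : ℝ) := by
  unfold Vm
  rw [Nat.choose_eq_zero_of_lt h1]
  have h3 : (1:ℝ) ≤ ((l - j).choose e : ℝ) := by exact_mod_cast Nat.choose_pos h2
  rw [Nat.cast_zero, max_eq_right (zero_le_one.trans h3), max_eq_right h3]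

theorem vm_mid {l e j : ℕ} (h1 : j ≤ e) (h2 : l - j ≤ e) : Vm l e j = 1 := by
  unfold Vm
  have h3 : (j.choose e : ℝ) ≤ 1 := by
    rcases eq_or_lt_of_le h1 with h | h
    · rw [h]; simp
    · rw [Nat.choose_eq_zero_of_lt h]; simp
  have h4 : ((l - j).choose e : ℝ) ≤ 1 := by
    rcases eq_or_lt_of_le h2 with h | h
    · rw [h]; simp
    · rw [Nat.choose_eq_zero_of_lt h]; simp
  rw [max_eq_left (max_le h3 h4)]

end Pool.Agent.HHalfB
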