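import Pool.Agent.HHalfB.BTwo

/-!
# The inequalities for `k ≥ 4`: tools
-/

set_option autoImplicit false

namespace Pool.Agent.HHalfB

open Pool.Agent.HHalf

/-- `D(s) = (d/2)(d + δ - s)`. -/
noncomputable def DG (d : ℕ) (δ : ℝ) : ℕ → ℝ := Dl ((d : ℝ) / 2) (d + δ)

theorem GG_val {n d s : ℕ} {δ : ℝ} :
    Gf n d (1 / 2) (DG d δ) s =
      d / 2 * ((s.choose d : ℝ) + ((n - s).choose d : ℝ) + d * ((d : ℝ) + δ - s)) := by
  unfold Gf DG Dl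
  ring

theorem GG_lo {n d s : ℕ} {δ t c c' : ℝ} (hs : (s : ℝ) + t ≤ d + δ) (hc : c ≤ (s.choose d : ℝ))
    (hc' : c' ≤ ((n - s).choose d : ℝ)) :
    (d : ℝ) / 2 * (c + c' + d * t) ≤ Gf n d (1 / 2) (DG d δ) s := by
  rw [GG_val]
  have h3 : (0:ℝ) ≤ (d : ℝ) := Nat.cast_nonneg _
  refine mul_le_mul_of_nonneg_left ?_ (by linarith)
  have h4 : (d : ℝ) * t ≤ d * ((d : ℝ) + δ - s) := mul_le_mul_of_nonneg_left (by linarith) h3
  linarith

theorem five_of {l n d J : ℕ} {θ : ℝ} {D : ℕ → ℝ} {V0 V1 V2 W G0 G1 G2 G3 G4 τ : ℝ}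
    (v0 : Vm l (d - 1) (J + 0) = V0) (v1 : Vm l (d - 1) (J + 1) = V1)
    (v2 : Vm l (d - 1) (J + 2) = V2) (g0 : G0 ≤ Gf n d θ D (J + 0)) (g1 : G1 ≤ Gf n d θ D (J + 1))
    (g2 : G2 ≤ Gf n d θ D (J + 2)) (g3 : G3 ≤ Gf n d θ D (J + 3)) (g4 : G4 ≤ Gf n d θ D (J + 4))
    (hτ : 0 < τ) (hW : V1 / τ ≤ W) (i0 : V0 + τ * V1 ≤ G0) (i1 : V0 + τ * V1 ≤ 2 * G1)
    (i2 : (V0 + τ * V1) + (V2 + W) ≤ 2 * G2) (i3 : V2 + W ≤ 2 * G3) (i4 : V2 + W ≤ G4) :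
    ∃ τ, Five (fun p => Vm l (d - 1) (J + p)) (fun s => Gf n d θ D (J + s)) τ := by
  refine ⟨τ, hτ, ?_, ?_, ?_, ?_, ?_⟩
  · simp only [v0, v1]; linarith
  · simp only [v0, v1]; linarith
  · simp only [v0, v1, v2]; linarith
  · simp only [v1, v2]; linarith
  · simp only [v1, v2]; linarith

/-- `C(j, d-1)` for `j = d - 1 + i`. -/
theorem e0 {d j : ℕ} (hd : 1 ≤ d) (h : j + 1 = d) : (j.choose (d - 1) : ℝ) = 1 := by
  obtain ⟨e, rfl⟩ : ∃ e, d = e + 1 := ⟨d - 1, by omega⟩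
  rw [show j = e by omega, Nat.add_sub_cancel, ch0]

theorem e1 {d j : ℕ} (hd : 1 ≤ d) (h : j = d) : (j.choose (d - 1) : ℝ) = d := by
  obtain ⟨e, rfl⟩ : ∃ e, d = e + 1 := ⟨d - 1, by omega⟩
  rw [show j = e + 1 by omega, Nat.add_sub_cancel, ch1]
  push_cast; ring

theorem e2 {d j : ℕ} (hd : 1 ≤ d) (h : j = d + 1) :
    (j.choose (d - 1) : ℝ) = (d : ℝ) * (d + 1) / 2 := by
  obtain ⟨e, rfl⟩ : ∃ e, d = e + 1 := ⟨d - 1, by omega⟩
  rw [show j = e + 2 by omega, Nat.add_sub_cancel, ch2]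
  push_cast; ring

theorem e3 {d j : ℕ} (hd : 1 ≤ d) (h : j = d + 2) :
    (j.choose (d - 1) : ℝ) = (d : ℝ) * (d + 1) * (d + 2) / 6 := by
  obtain ⟨e, rfl⟩ : ∃ e, d = e + 1 := ⟨d - 1, by omega⟩
  rw [show j = e + 3 by omega, Nat.add_sub_cancel, ch3]
  push_cast; ring

theorem e4 {d j : ℕ} (hd : 1 ≤ d) (h : j = d + 3) :
    (j.choose (d - 1) : ℝ) = (d : ℝ) * (d + 1) * (d + 2) * (d + 3) / 24 := by
  obtain ⟨e, rfl⟩ : ∃ e, d = e + 1 := ⟨d - 1, by omega⟩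
  rw [show j = e + 4 by omega, Nat.add_sub_cancel, ch4]
  push_cast; ring

/-- The case `J = k - 3` (`n = d + k`). -/
theorem cL0 {d k J : ℕ} {δ : ℝ} (hδ : 1 ≤ δ) (hk : 4 ≤ k) (hkd : k + 2 ≤ d) (hJ : J + 3 = k) :
    ∃ τ, Five (fun p => Vm (d + k - 2) (d - 1) (J + p))
      (fun s => Gf (d + k) d (1 / 2) (DG d δ) (J + s)) τ := by
  have hx : (6:ℝ) ≤ (d : ℝ) := by exact_mod_cast (show 6 ≤ d by omega)
  have hJd : (J : ℝ) + 5 ≤ d := by exact_mod_cast (show J + 5 ≤ d by omega)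
  have hn : ∀ m : ℕ, (0:ℝ) ≤ ((m.choose d : ℕ) : ℝ) := fun m => Nat.cast_nonneg _
  have v0 : Vm (d + k - 2) (d - 1) (J + 0) = (d : ℝ) * (d + 1) / 2 := by
    rw [vm_left (by omega) (by omega)]; exact e2 (by omega) (by omega)
  have v1 : Vm (d + k - 2) (d - 1) (J + 1) = (d : ℝ) := by
    rw [vm_left (by omega) (by omega)]; exact e1 (by omega) (by omega)
  have v2 : Vm (d + k - 2) (d - 1) (J + 2) = 1 := vm_mid (by omega) (by omega)
  have g0 := GG_lo (n := d + k) (d := d) (s := J + 0) (δ := δ) (t := 6) (by push_cast; linarith)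
    (hn _) (hn _)
  have g1 := GG_lo (n := d + k) (d := d) (s := J + 1) (δ := δ) (t := 5) (by push_cast; linarith)
    (hn _) (hn _)
  have g2 := GG_lo (n := d + k) (d := d) (s := J + 2) (δ := δ) (t := 4) (by push_cast; linarith)
    (hn _) (hn _)
  have g3 := GG_lo (n := d + k) (d := d) (s := J + 3) (δ := δ) (t := 3) (by push_cast; linarith)
    (hn _) (hn _)
  have g4 := GG_lo (n := d + k) (d := d) (s := J + 4) (δ := δ) (t := 2) (by push_cast; linarith)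
    (hn _) (hn _)
  refine five_of (τ := 1) (W := (d : ℝ)) v0 v1 v2 g0 g1 g2 g3 g4 one_pos (by rw [div_one])
    ?_ ?_ ?_ ?_ ?_
  all_goals nlinarith

/-- The case `J = k - 4`. -/
theorem cL1 {d k J : ℕ} {δ : ℝ} (hδ : 1 ≤ δ) (hk : 4 ≤ k) (hkd : k + 2 ≤ d) (hJ : J + 4 = k) :
    ∃ τ, Five (fun p => Vm (d + k - 2) (d - 1) (J + p))
      (fun s => Gf (d + k) d (1 / 2) (DG d δ) (J + s)) τ := by
  have hx : (6:ℝ) ≤ (d : ℝ) := by exact_mod_cast (show 6 ≤ d by omega)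
  have hJd : (J : ℝ) + 6 ≤ d := by exact_mod_cast (show J + 6 ≤ d by omega)
  have hn : ∀ m : ℕ, (0:ℝ) ≤ ((m.choose d : ℕ) : ℝ) := fun m => Nat.cast_nonneg _
  have v0 : Vm (d + k - 2) (d - 1) (J + 0) = (d : ℝ) * (d + 1) * (d + 2) / 6 := by
    rw [vm_left (by omega) (by omega)]; exact e3 (by omega) (by omega)
  have v1 : Vm (d + k - 2) (d - 1) (J + 1) = (d : ℝ) * (d + 1) / 2 := by
    rw [vm_left (by omega) (by omega)]; exact e2 (by omega) (by omega)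
  have v2 : Vm (d + k - 2) (d - 1) (J + 2) = d := by
    rw [vm_left (by omega) (by omega)]; exact e1 (by omega) (by omega)
  have c4 : (((d + k - (J + 0)).choose d : ℕ) : ℝ) =
      ((d : ℝ) + 1) * (d + 2) * (d + 3) * (d + 4) / 24 := by
    rw [show d + k - (J + 0) = d + 4 by omega, ch4]
  have c3 : (((d + k - (J + 1)).choose d : ℕ) : ℝ) = ((d : ℝ) + 1) * (d + 2) * (d + 3) / 6 := by
    rw [show d + k - (J + 1) = d + 3 by omega, ch3]
  have c2 : (((d + k - (J + 2)).choose d : ℕ) : ℝ) = ((d : ℝ) + 1) * (d + 2) / 2 := by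
    rw [show d + k - (J + 2) = d + 2 by omega, ch2]
  have g0 := GG_lo (n := d + k) (d := d) (s := J + 0) (δ := δ) (t := 7) (by push_cast; linarith)
    (hn _) c4.ge
  have g1 := GG_lo (n := d + k) (d := d) (s := J + 1) (δ := δ) (t := 6) (by push_cast; linarith)
    (hn _) c3.ge
  have g2 := GG_lo (n := d + k) (d := d) (s := J + 2) (δ := δ) (t := 5) (by push_cast; linarith)
    (hn _) c2.ge
  have g3 := GG_lo (n := d + k) (d := d) (s := J + 3) (δ := δ) (t := 4) (by push_cast; linarith)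
    (hn _) (hn _)
  have g4 := GG_lo (n := d + k) (d := d) (s := J + 4) (δ := δ) (t := 3) (by push_cast; linarith)
    (hn _) (hn _)
  refine five_of (τ := 1) (W := (d : ℝ) * (d + 1) / 2) v0 v1 v2 g0 g1 g2 g3 g4 one_pos
    (by rw [div_one]) ?_ ?_ ?_ ?_ ?_
  all_goals
    obtain ⟨y, hy, hxy⟩ : ∃ y : ℝ, 0 ≤ y ∧ (d : ℝ) = y + 6 := ⟨d - 6, by linarith, by ring⟩
    rw [hxy, ← sub_nonneg]
    ring_nf
    positivity

end Pool.Agent.HHalfB
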