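import Pool.Agent.HHalf.VTwo
import Pool.Agent.HHalfB.BGen

/-!
# The inequalities for `k ≥ 5` (`δ = 2`): the left end
-/

set_option autoImplicit false

namespace Pool.Agent.HHalfB

open Pool.Agent.HHalf

/-- The case `J = k - 5`. -/
theorem cL2 {d k J : ℕ} (hkd : k + 2 ≤ d) (hJ : J + 5 = k) :
    ∃ τ, Five (fun p => Vm (d + k - 2) (d - 1) (J + p))
      (fun s => Gf (d + k) d (1 / 2) (DG d 2) (J + s)) τ := by
  have hx : (7:ℝ) ≤ (d : ℝ) := by exact_mod_cast (show 7 ≤ d by omega)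
  have hJd : (J : ℝ) + 7 ≤ d := by exact_mod_cast (show J + 7 ≤ d by omega)
  have hn : ∀ m : ℕ, (0:ℝ) ≤ ((m.choose d : ℕ) : ℝ) := fun m => Nat.cast_nonneg _
  have v0 : Vm (d + k - 2) (d - 1) (J + 0) = (d : ℝ) * (d + 1) * (d + 2) * (d + 3) / 24 := by
    rw [vm_left (by omega) (by omega)]; exact e4 (by omega) (by omega)
  have v1 : Vm (d + k - 2) (d - 1) (J + 1) = (d : ℝ) * (d + 1) * (d + 2) / 6 := by
    rw [vm_left (by omega) (by omega)]; exact e3 (by omega) (by omega)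
  have v2 : Vm (d + k - 2) (d - 1) (J + 2) = (d : ℝ) * (d + 1) / 2 := by
    rw [vm_left (by omega) (by omega)]; exact e2 (by omega) (by omega)
  have c4 : (((d + k - (J + 0)).choose d : ℕ) : ℝ) =
      ((d : ℝ) + 1) * (d + 2) * (d + 3) * (d + 4) * (d + 5) / 120 := by
    rw [show d + k - (J + 0) = d + 5 by omega, ch5]
  have c3 : (((d + k - (J + 1)).choose d : ℕ) : ℝ) =
      ((d : ℝ) + 1) * (d + 2) * (d + 3) * (d + 4) / 24 := by
    rw [show d + k - (J + 1) = d + 4 by omega, ch4]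
  have c2 : (((d + k - (J + 2)).choose d : ℕ) : ℝ) = ((d : ℝ) + 1) * (d + 2) * (d + 3) / 6 := by
    rw [show d + k - (J + 2) = d + 3 by omega, ch3]
  have c1 : (((d + k - (J + 3)).choose d : ℕ) : ℝ) = ((d : ℝ) + 1) * (d + 2) / 2 := by
    rw [show d + k - (J + 3) = d + 2 by omega, ch2]
  have c0 : (((d + k - (J + 4)).choose d : ℕ) : ℝ) = (d : ℝ) + 1 := by
    rw [show d + k - (J + 4) = d + 1 by omega, ch1]
  have g0 := GG_lo (n := d + k) (d := d) (s := J + 0) (δ := 2) (t := 9) (by push_cast; linarith)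
    (hn _) c4.ge
  have g1 := GG_lo (n := d + k) (d := d) (s := J + 1) (δ := 2) (t := 8) (by push_cast; linarith)
    (hn _) c3.ge
  have g2 := GG_lo (n := d + k) (d := d) (s := J + 2) (δ := 2) (t := 7) (by push_cast; linarith)
    (hn _) c2.ge
  have g3 := GG_lo (n := d + k) (d := d) (s := J + 3) (δ := 2) (t := 6) (by push_cast; linarith)
    (hn _) c1.ge
  have g4 := GG_lo (n := d + k) (d := d) (s := J + 4) (δ := 2) (t := 5) (by push_cast; linarith)
    (hn _) c0.ge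
  have hd0 : (0:ℝ) < d := by linarith
  refine five_of (τ := (d : ℝ) / 10) (W := 5 / 3 * ((d : ℝ) + 1) * (d + 2)) v0 v1 v2 g0 g1 g2 g3 g4
    (by positivity) (le_of_eq (by field_simp; ring)) ?_ ?_ ?_ ?_ ?_
  all_goals
    obtain ⟨y, hy, hxy⟩ : ∃ y : ℝ, 0 ≤ y ∧ (d : ℝ) = y + 7 := ⟨d - 7, by linarith, by ring⟩
    rw [hxy, ← sub_nonneg]
    ring_nf
    positivity

/-- The cases `J ≤ k - 6`: reflection of `V2large`. -/
theorem cL3 {d k J r : ℕ} (hkd : k + 2 ≤ d) (hr : d + k = 2 * r + 4) (hJ : J + 6 ≤ k) :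
    ∃ τ, Five (fun p => Vm (d + k - 2) (d - 1) (J + p))
      (fun s => Gf (d + k) d (1 / 2) (DG d 2) (J + s)) τ := by
  have h1 := V2large (r := r) (d := d) (J := 2 * r - J) (by omega) (by omega) (by omega)
  have h2 := V2refl (r := r) (d := d) (J := J) (by omega) h1
  obtain ⟨h0, i0, i1, i2, i3, i4⟩ := h2
  set τ := ((((2 * r - J : ℕ) : ℝ) - d - 1) / 2 * (((2 * r - J).choose (d - 1) : ℕ) : ℝ) /
    (((2 * r - J + 1).choose (d - 1) : ℕ) : ℝ))⁻¹ with hτ
  have hv : ∀ p ≤ 2, Vm (d + k - 2) (d - 1) (J + p) = Mv r d J p := by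
    intro p hp
    unfold Vm Mv
    rw [show d + k - 2 - (J + p) = 2 * r + 2 - (J + p) by omega]
    refine max_eq_right ?_
    refine le_max_of_le_right ?_
    exact_mod_cast Nat.choose_pos (show d - 1 ≤ 2 * r + 2 - (J + p) by omega)
  have hg : ∀ s ≤ 4, (d : ℝ) / 2 * gv r d J s ≤ Gf (d + k) d (1 / 2) (DG d 2) (J + s) := by
    intro s hs
    rw [GG_val]
    unfold gv
    rw [show d + k - (J + s) = 2 * r + 4 - (J + s) by omega]
    have h3 : (0:ℝ) ≤ (d : ℝ) := Nat.cast_nonneg _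
    have h4 : (((J + s : ℕ) : ℝ)) ≤ d := by exact_mod_cast (show J + s ≤ d by omega)
    have h5 : 0 ≤ (d : ℝ) * ((d : ℝ) + 2 - ((J + s : ℕ) : ℝ)) := mul_nonneg h3 (by linarith)
    refine mul_le_mul_of_nonneg_left ?_ (by linarith)
    linarith
  refine ⟨τ, h0, ?_, ?_, ?_, ?_, ?_⟩
  · simp only [hv 0 (by norm_num), hv 1 (by norm_num)]
    have := hg 0 (by norm_num)
    linarith
  · simp only [hv 0 (by norm_num), hv 1 (by norm_num)]
    have := hg 1 (by norm_num)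
    linarith
  · simp only [hv 0 (by norm_num), hv 1 (by norm_num), hv 2 (by norm_num)]
    have := hg 2 (by norm_num)
    linarith
  · simp only [hv 1 (by norm_num), hv 2 (by norm_num)]
    have := hg 3 (by norm_num)
    linarith
  · simp only [hv 1 (by norm_num), hv 2 (by norm_num)]
    have := hg 4 (by norm_num)
    linarith

/-- The case `J = d + 1`. -/
theorem cR3 {d k J : ℕ} (hk : 5 ≤ k) (hkd : k + 2 ≤ d) (hJ : J = d + 1) :
    ∃ τ, Five (fun p => Vm (d + k - 2) (d - 1) (J + p))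
      (fun s => Gf (d + k) d (1 / 2) (DG d 2) (J + s)) τ := by
  have hx : (7:ℝ) ≤ (d : ℝ) := by exact_mod_cast (show 7 ≤ d by omega)
  have hJd : (J : ℝ) = d + 1 := by exact_mod_cast hJ
  have hn : ∀ m : ℕ, (0:ℝ) ≤ ((m.choose d : ℕ) : ℝ) := fun m => Nat.cast_nonneg _
  have v0 : Vm (d + k - 2) (d - 1) (J + 0) = (d : ℝ) * (d + 1) / 2 := by
    rw [vm_right (by omega) (by omega)]; exact e2 (by omega) (by omega)
  have v1 : Vm (d + k - 2) (d - 1) (J + 1) = (d : ℝ) * (d + 1) * (d + 2) / 6 := by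
    rw [vm_right (by omega) (by omega)]; exact e3 (by omega) (by omega)
  have v2 : Vm (d + k - 2) (d - 1) (J + 2) = (d : ℝ) * (d + 1) * (d + 2) * (d + 3) / 24 := by
    rw [vm_right (by omega) (by omega)]; exact e4 (by omega) (by omega)
  have c0 : (((J + 0).choose d : ℕ) : ℝ) = (d : ℝ) + 1 := by rw [Nat.add_zero, hJ, ch1]
  have c1 : (((J + 1).choose d : ℕ) : ℝ) = ((d : ℝ) + 1) * (d + 2) / 2 := by
    rw [show J + 1 = d + 2 by omega, ch2]
  have c2 : (((J + 2).choose d : ℕ) : ℝ) = ((d : ℝ) + 1) * (d + 2) * (d + 3) / 6 := by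
    rw [show J + 2 = d + 3 by omega, ch3]
  have c3 : (((J + 3).choose d : ℕ) : ℝ) = ((d : ℝ) + 1) * (d + 2) * (d + 3) * (d + 4) / 24 := by
    rw [show J + 3 = d + 4 by omega, ch4]
  have c4 : (((J + 4).choose d : ℕ) : ℝ) =
      ((d : ℝ) + 1) * (d + 2) * (d + 3) * (d + 4) * (d + 5) / 120 := by
    rw [show J + 4 = d + 5 by omega, ch5]
  have g0 := GG_lo (n := d + k) (d := d) (s := J + 0) (δ := 2) (t := 1) (by push_cast; linarith)
    c0.ge (hn _)
  have g1 := GG_lo (n := d + k) (d := d) (s := J + 1) (δ := 2) (t := 0) (by push_cast; linarith)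
    c1.ge (hn _)
  have g2 := GG_lo (n := d + k) (d := d) (s := J + 2) (δ := 2) (t := -1) (by push_cast; linarith)
    c2.ge (hn _)
  have g3 := GG_lo (n := d + k) (d := d) (s := J + 3) (δ := 2) (t := -2) (by push_cast; linarith)
    c3.ge (hn _)
  have g4 := GG_lo (n := d + k) (d := d) (s := J + 4) (δ := 2) (t := -3) (by push_cast; linarith)
    c4.ge (hn _)
  have hd0 : (0:ℝ) < d := by linarith
  have hτ : (2 : ℝ) / d * ((d : ℝ) * (d + 1) * (d + 2) / 6) = ((d : ℝ) + 1) * (d + 2) / 3 := by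
    field_simp; ring
  refine five_of (τ := 2 / (d : ℝ)) (W := (d : ℝ) ^ 2 * (d + 1) * (d + 2) / 12) v0 v1 v2 g0 g1 g2
    g3 g4 (by positivity) (le_of_eq (by field_simp; ring)) ?_ ?_ ?_ ?_ ?_
  all_goals
    try rw [hτ]
    obtain ⟨y, hy, hxy⟩ : ∃ y : ℝ, 0 ≤ y ∧ (d : ℝ) = y + 7 := ⟨d - 7, by linarith, by ring⟩
    rw [hxy, ← sub_nonneg]
    ring_nf
    positivity

end Pool.Agent.HHalfB
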