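import Pool.Agent.HHalf.VTwoB
import Pool.Agent.HHalfB.BGen

/-!
# The inequalities for `k ≥ 5` (`δ = 2`): the right end `J ≥ d + 2`
-/

set_option autoImplicit false

namespace Pool.Agent.HHalfB

open Pool.Agent.HHalf

/-- The arithmetic of the case `J = d + j`, `j ≥ 2`; `q = d²`. -/
theorem arith {B0 B1 B2 B3 B4 j q : ℝ} (hj : 2 ≤ j) (p0 : 0 < B0) (c01 : B0 ≤ B1)
    (c12 : B1 ≤ B2) (c23 : B2 ≤ B3)
    (hsq : (j + 2) * B1 ^ 2 ≤ (j + 3) * B0 * B2) (f0 : 4 * (q * (j - 2)) ≤ (j - 1) * B0)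
    (hq : 0 ≤ q) (f1 : 2 * q ≤ B1) (f2 : 48 * q ≤ 7 * B2) (r1 : 4 * B0 ≤ B2) (r2 : 2 * B2 ≤ B4) :
    ∃ τ W : ℝ, 0 < τ ∧ B1 / τ ≤ W ∧ B0 + τ * B1 ≤ ((j + 1) * B0 - q * (j - 2)) / 2 ∧
      B0 + τ * B1 ≤ 2 * (((j + 2) * B1 - q * (j - 1)) / 2) ∧
      (B0 + τ * B1) + (B2 + W) ≤ 2 * (((j + 3) * B2 - q * j) / 2) ∧
      B2 + W ≤ 2 * (((j + 4) * B3 - q * (j + 1)) / 2) ∧
      B2 + W ≤ ((j + 5) * B4 - q * (j + 2)) / 2 := by
  have p1 : 0 < B1 := lt_of_lt_of_le p0 c01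
  have p2 : 0 < B2 := lt_of_lt_of_le p1 c12
  set t : ℝ := ((j - 1) * B0 - q * (j - 2)) / 2 with ht
  have ht1 : 3 / 8 * ((j - 1) * B0) ≤ t := by rw [ht]; linarith
  have ht2 : t ≤ (j - 1) * B0 / 2 := by
    have : 0 ≤ q * (j - 2) := mul_nonneg hq (by linarith)
    rw [ht]; linarith
  have hjB : 0 < (j - 1) * B0 := mul_pos (by linarith) p0
  have ht0 : 0 < t := by linarith
  have hτ : t / B1 * B1 = t := div_mul_cancel₀ _ p1.ne'
  have hW : B1 / (t / B1) ≤ 2 / 3 * (j + 3) * B2 := by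
    rw [div_div_eq_mul_div, div_le_iff₀ ht0]
    have h1 : 4 ≤ (j - 1) * (j + 2) := by nlinarith
    have h2 : (j + 2) * (B1 * B1) ≤ (j + 2) * (2 / 3 * (j + 3) * B2 * t) := by
      have h3 : 0 ≤ (j + 3) * B0 * B2 := by positivity
      have h4 : (j + 3) * B0 * B2 ≤ (j - 1) * (j + 2) / 4 * ((j + 3) * B0 * B2) :=
        le_mul_of_one_le_left h3 (by linarith)
      have h5 : (j - 1) * (j + 2) / 4 * ((j + 3) * B0 * B2) =
          (j + 2) * (2 / 3 * (j + 3) * B2 * (3 / 8 * ((j - 1) * B0))) := by ring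
      have h6 : (j + 2) * (2 / 3 * (j + 3) * B2 * (3 / 8 * ((j - 1) * B0))) ≤
          (j + 2) * (2 / 3 * (j + 3) * B2 * t) := by
        refine mul_le_mul_of_nonneg_left ?_ (by linarith)
        exact mul_le_mul_of_nonneg_left ht1 (by positivity)
      calc (j + 2) * (B1 * B1) = (j + 2) * B1 ^ 2 := by ring
        _ ≤ (j + 3) * B0 * B2 := hsq
        _ ≤ _ := h4
        _ = _ := h5
        _ ≤ _ := h6
    exact le_of_mul_le_mul_left h2 (by linarith)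
  have hqj : 48 * (q * j) ≤ 7 * (B2 * j) := by nlinarith
  have hr1 : 4 * ((j + 1) * B0) ≤ (j + 1) * B2 := by nlinarith
  refine ⟨t / B1, 2 / 3 * (j + 3) * B2, div_pos ht0 p1, hW, ?_, ?_, ?_, ?_, ?_⟩
  · rw [hτ, ht]; linarith
  · rw [hτ]
    have h1 : (j + 1) * B0 ≤ (j + 1) * B1 := mul_le_mul_of_nonneg_left c01 (by linarith)
    have h2 : 2 * (q * (j - 1)) ≤ B1 * (j - 1) := by nlinarith
    linarith
  · rw [hτ]
    have h1 : (j - 1) * B0 = (j + 1) * B0 - 2 * B0 := by ring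
    have h3 : 2 * B2 ≤ j * B2 := mul_le_mul_of_nonneg_right hj p2.le
    linarith
  · have h1 : (j + 4) * B2 ≤ (j + 4) * B3 := mul_le_mul_of_nonneg_left c23 (by linarith)
    have h3 : 2 * B2 ≤ j * B2 := mul_le_mul_of_nonneg_right hj p2.le
    linarith
  · have h1 : (j + 5) * (2 * B2) ≤ (j + 5) * B4 := mul_le_mul_of_nonneg_left r2 (by linarith)
    have h3 : 2 * B2 ≤ j * B2 := mul_le_mul_of_nonneg_right hj p2.le
    linarith

theorem succ_up {d m : ℕ} (hd : 1 ≤ d) (hm : d ≤ m) :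
    ((m + 1).choose (d - 1) : ℝ) * ((m : ℝ) - d + 2) = ((m : ℝ) + 1) * (m.choose (d - 1) : ℝ) := by
  obtain ⟨e, rfl⟩ : ∃ e, d = e + 1 := ⟨d - 1, by omega⟩
  obtain ⟨s, rfl⟩ : ∃ s, m = e + s := ⟨m - e, by omega⟩
  have h := ch_step e s
  rw [Nat.add_sub_cancel]
  push_cast
  linear_combination h

theorem up_right {d m : ℕ} (hd : 1 ≤ d) (hm : d ≤ m) :
    (d : ℝ) * (m.choose d : ℝ) = ((m : ℝ) - d + 1) * (m.choose (d - 1) : ℝ) := by
  obtain ⟨e, rfl⟩ : ∃ e, d = e + 1 := ⟨d - 1, by omega⟩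
  have h1 := Nat.choose_succ_right_eq m e
  have h3 : (((m - e : ℕ)) : ℝ) = (m : ℝ) - e := by
    rw [Nat.cast_sub (by omega)]
  have h2 : (m.choose (e + 1) : ℝ) * (e + 1) = (m.choose e : ℝ) * ((m : ℝ) - e) := by
    rw [← h3]
    exact_mod_cast h1
  rw [Nat.add_sub_cancel]
  push_cast
  linear_combination h2

/-- The cases `J ≥ d + 2`. -/
theorem cR4 {d k J : ℕ} (hkd : k + 2 ≤ d) (hJ : d + 2 ≤ J) (hJk : J + 4 ≤ d + k) :
    ∃ τ, Five (fun p => Vm (d + k - 2) (d - 1) (J + p))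
      (fun s => Gf (d + k) d (1 / 2) (DG d 2) (J + s)) τ := by
  have hd1 : 1 ≤ d := by omega
  have hx : (8:ℝ) ≤ (d : ℝ) := by exact_mod_cast (show 8 ≤ d by omega)
  have hj2 : (2:ℝ) ≤ (J : ℝ) - d := by
    have : ((d + 2 : ℕ) : ℝ) ≤ J := by exact_mod_cast hJ
    push_cast at this; linarith
  have hdJ : (J : ℝ) - d + 6 ≤ d := by
    have : ((J + 6 : ℕ) : ℝ) ≤ ((d + d : ℕ) : ℝ) := by exact_mod_cast (show J + 6 ≤ d + d by omega)
    push_cast at this; linarith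
  have v : ∀ p ≤ 2, Vm (d + k - 2) (d - 1) (J + p) = ((J + p).choose (d - 1) : ℝ) := fun p hp =>
    vm_right (by omega) (by omega)
  have g : ∀ s ≤ 4, ((((J : ℝ) - d) + s + 1) * ((J + s).choose (d - 1) : ℝ) -
      (d : ℝ) ^ 2 * (((J : ℝ) - d) + s - 2)) / 2 ≤ Gf (d + k) d (1 / 2) (DG d 2) (J + s) := by
    intro s hs
    refine le_trans (le_of_eq ?_) (GG_lo (n := d + k) (d := d) (s := J + s) (δ := 2)
      (t := (d : ℝ) + 2 - ((J + s : ℕ) : ℝ)) (by linarith) (le_refl _) (Nat.cast_nonneg _))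
    have h1 := up_right (d := d) (m := J + s) hd1 (by omega)
    push_cast at h1 ⊢
    linear_combination (-1 / 2) * h1
  have c01 : (J.choose (d - 1) : ℝ) ≤ ((J + 1).choose (d - 1) : ℝ) := ch_mono _ (by omega)
  have c12 : ((J + 1).choose (d - 1) : ℝ) ≤ ((J + 2).choose (d - 1) : ℝ) := ch_mono _ (by omega)
  have c23 : ((J + 2).choose (d - 1) : ℝ) ≤ ((J + 3).choose (d - 1) : ℝ) := ch_mono _ (by omega)
  have p0 : (0 : ℝ) < (J.choose (d - 1) : ℝ) := by exact_mod_cast Nat.choose_pos (by omega)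
  have hsq := B_sq (d := d) (J := J) hd1 (by omega)
  have u0 := succ_up (d := d) (m := J) hd1 (by omega)
  have u1 := succ_up (d := d) (m := J + 1) hd1 (by omega)
  have u2 := succ_up (d := d) (m := J + 2) hd1 (by omega)
  have u3 := succ_up (d := d) (m := J + 3) hd1 (by omega)
  have s1 : J + 1 + 1 = J + 2 := rfl
  have s2 : J + 2 + 1 = J + 3 := rfl
  have s3 : J + 3 + 1 = J + 4 := rfl
  rw [s1] at u1
  rw [s2] at u2
  rw [s3] at u3
  push_cast at u1 u2 u3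
  -- lower bounds
  have l3 : 4 * (d : ℝ) ^ 2 ≤ ((d + 3).choose (d - 1) : ℝ) := by
    rw [e4 hd1 rfl]
    obtain ⟨y, hy, hxy⟩ : ∃ y : ℝ, 0 ≤ y ∧ (d : ℝ) = y + 8 := ⟨d - 8, by linarith, by ring⟩
    rw [hxy, ← sub_nonneg]
    ring_nf
    positivity
  have l4 : 48 * (d : ℝ) ^ 2 ≤ 7 * ((d + 4).choose (d - 1) : ℝ) := by
    have h1 : ((d + 4).choose (d - 1) : ℝ) =
        (d : ℝ) * (d + 1) * (d + 2) * (d + 3) * (d + 4) / 120 := by
      obtain ⟨e, rfl⟩ : ∃ e, d = e + 1 := ⟨d - 1, by omega⟩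
      rw [show e + 1 + 4 = e + 5 by omega, Nat.add_sub_cancel, ch5]
      push_cast; ring
    rw [h1]
    obtain ⟨y, hy, hxy⟩ : ∃ y : ℝ, 0 ≤ y ∧ (d : ℝ) = y + 8 := ⟨d - 8, by linarith, by ring⟩
    rw [hxy, ← sub_nonneg]
    ring_nf
    positivity
  have f1 : 2 * (d : ℝ) ^ 2 ≤ ((J + 1).choose (d - 1) : ℝ) := by
    have h1 := ch_mono (d - 1) (show d + 3 ≤ J + 1 by omega)
    have h2 : 0 ≤ (d : ℝ) ^ 2 := sq_nonneg _
    linarith
  have f2 : 48 * (d : ℝ) ^ 2 ≤ 7 * ((J + 2).choose (d - 1) : ℝ) := by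
    have h1 := ch_mono (d - 1) (show d + 4 ≤ J + 2 by omega)
    linarith
  have f0 : 4 * ((d : ℝ) ^ 2 * (((J : ℝ) - d) - 2)) ≤ (((J : ℝ) - d) - 1) * (J.choose (d - 1) : ℝ) := by
    rcases eq_or_lt_of_le hJ with h | h
    · have : (J : ℝ) - d = 2 := by rw [← h]; push_cast; ring
      rw [this]
      have := p0.le
      linarith
    · have h1 := ch_mono (d - 1) (show d + 3 ≤ J by omega)
      have h2 : 4 * (d : ℝ) ^ 2 ≤ (J.choose (d - 1) : ℝ) := l3.trans h1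
      nlinarith
  have hJ0 : (0:ℝ) ≤ (J : ℝ) := Nat.cast_nonneg _
  have r1 : 4 * (J.choose (d - 1) : ℝ) ≤ ((J + 2).choose (d - 1) : ℝ) := by
    have h1 : 2 * (J.choose (d - 1) : ℝ) ≤ ((J + 1).choose (d - 1) : ℝ) := by
      have h2 : ((J : ℝ) - d + 2) * (2 * (J.choose (d - 1) : ℝ)) ≤
          ((J : ℝ) - d + 2) * ((J + 1).choose (d - 1) : ℝ) := by
        have h3 : (2 * ((J : ℝ) - d + 2)) * (J.choose (d - 1) : ℝ) ≤
            ((J : ℝ) + 1) * (J.choose (d - 1) : ℝ) := mul_le_mul_of_nonneg_right (by linarith) p0.le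
        linarith
      exact le_of_mul_le_mul_left h2 (by linarith)
    have h1' : 2 * ((J + 1).choose (d - 1) : ℝ) ≤ ((J + 2).choose (d - 1) : ℝ) := by
      have p1 : (0:ℝ) ≤ ((J + 1).choose (d - 1) : ℝ) := Nat.cast_nonneg _
      have h2 : ((J : ℝ) + 1 - d + 2) * (2 * ((J + 1).choose (d - 1) : ℝ)) ≤
          ((J : ℝ) + 1 - d + 2) * ((J + 2).choose (d - 1) : ℝ) := by
        have h3 : (2 * ((J : ℝ) + 1 - d + 2)) * ((J + 1).choose (d - 1) : ℝ) ≤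
            ((J : ℝ) + 1 + 1) * ((J + 1).choose (d - 1) : ℝ) :=
          mul_le_mul_of_nonneg_right (by linarith) p1
        linarith
      exact le_of_mul_le_mul_left h2 (by linarith)
    linarith
  have r2 : 2 * ((J + 2).choose (d - 1) : ℝ) ≤ ((J + 4).choose (d - 1) : ℝ) := by
    have c34 : ((J + 3).choose (d - 1) : ℝ) ≤ ((J + 4).choose (d - 1) : ℝ) := ch_mono _ (by omega)
    have p2 : (0:ℝ) ≤ ((J + 2).choose (d - 1) : ℝ) := Nat.cast_nonneg _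
    have h2 : ((J : ℝ) + 2 - d + 2) * (2 * ((J + 2).choose (d - 1) : ℝ)) ≤
        ((J : ℝ) + 2 - d + 2) * ((J + 3).choose (d - 1) : ℝ) := by
      have h3 : (2 * ((J : ℝ) + 2 - d + 2)) * ((J + 2).choose (d - 1) : ℝ) ≤
          ((J : ℝ) + 2 + 1) * ((J + 2).choose (d - 1) : ℝ) :=
        mul_le_mul_of_nonneg_right (by linarith) p2
      linarith
    exact (le_of_mul_le_mul_left h2 (by linarith)).trans c34
  have hsq' : ((J : ℝ) - d + 2) * ((J + 1).choose (d - 1) : ℝ) ^ 2 ≤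
      ((J : ℝ) - d + 3) * (J.choose (d - 1) : ℝ) * ((J + 2).choose (d - 1) : ℝ) := hsq
  obtain ⟨τ, W, hτ, hW, i0, i1, i2, i3, i4⟩ := arith (j := (J : ℝ) - d) (q := (d : ℝ) ^ 2) hj2 p0
    c01 c12 c23 hsq' f0 (sq_nonneg _) f1 f2 r1 r2
  have g0 := g 0 (by norm_num)
  have g1 := g 1 (by norm_num)
  have g2 := g 2 (by norm_num)
  have g3 := g 3 (by norm_num)
  have g4 := g 4 (by norm_num)
  refine five_of (v 0 (by norm_num)) (v 1 (by norm_num)) (v 2 (by norm_num)) g0 g1 g2 g3 g4 hτ hW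
    ?_ ?_ ?_ ?_ ?_
  · refine le_trans i0 (le_of_eq ?_)
    push_cast; ring_nf
  · refine le_trans i1 (le_of_eq ?_)
    push_cast; ring
  · refine le_trans i2 (le_of_eq ?_)
    push_cast; ring
  · refine le_trans i3 (le_of_eq ?_)
    push_cast; ring
  · refine le_trans i4 (le_of_eq ?_)
    push_cast; ring

end Pool.Agent.HHalfB
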