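import Pool.Agent.HHalfB.BGenB
import Pool.Agent.HHalfB.BGenC
import Pool.Agent.HHalfB.BGenD

/-!
# The inequalities for `k ≥ 4`: same pair, and the summary for different pairs
-/

set_option autoImplicit false

namespace Pool.Agent.HHalfB

open Pool.Agent.HHalf

theorem up_all {d m : ℕ} (hd : 1 ≤ d) (hm : d ≤ m + 1) :
    (d : ℝ) * (m.choose d : ℝ) = ((m : ℝ) - d + 1) * (m.choose (d - 1) : ℝ) := by
  rcases Nat.lt_or_ge m d with h | h
  · have e : (m : ℝ) - d + 1 = 0 := by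
      have : m + 1 = d := by omega
      rw [← this]; push_cast; ring
    rw [Nat.choose_eq_zero_of_lt h, e]
    simp
  · exact up_right hd h

theorem good1_gen {d k : ℕ} {δ : ℝ} (hδ : 1 ≤ δ) (hk : 4 ≤ k) (hkd : k + 2 ≤ d) :
    ∀ J ≤ d + k - 2, ∀ p ≤ 2,
      Vm (d + k - 2) (d - 1) J ≤ Gf (d + k) d (1 / 2) (DG d δ) (J + p) := by
  intro J hJ p hp
  have hx : (6:ℝ) ≤ (d : ℝ) := by exact_mod_cast (show 6 ≤ d by omega)
  have hd1 : 1 ≤ d := by omega
  have hn : ∀ m : ℕ, (0:ℝ) ≤ ((m.choose d : ℕ) : ℝ) := fun m => Nat.cast_nonneg _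
  have hcases : J + 1 ≤ k ∨ (k ≤ J ∧ J + 1 ≤ d) ∨ J = d ∨ J = d + 1 ∨ d + 2 ≤ J := by omega
  rcases hcases with h | ⟨h1, h2⟩ | h | h | h
  · -- left
    rw [vm_left (by omega) (by omega)]
    obtain ⟨m, hm⟩ : ∃ m, m = d + k - 2 - J := ⟨_, rfl⟩
    rw [← hm]
    have c := ch_mono d (show m ≤ d + k - (J + p) by omega)
    have hs : ((J + p : ℕ) : ℝ) + ((m : ℝ) - d + 3) ≤ d + δ := by
      have h3 : ((J + p + (m + 3) : ℕ) : ℝ) ≤ ((d + d + 1 : ℕ) : ℝ) := by
        exact_mod_cast (show J + p + (m + 3) ≤ d + d + 1 by omega)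
      push_cast at h3 ⊢
      linarith
    have g := GG_lo (n := d + k) (d := d) (s := J + p) (δ := δ) hs (hn _) c
    refine le_trans ?_ g
    have hu := up_all (d := d) (m := m) hd1 (by omega)
    have hV : (1:ℝ) ≤ (m.choose (d - 1) : ℝ) := by exact_mod_cast Nat.choose_pos (by omega)
    have hma : ((d : ℕ) : ℝ) ≤ ((m + 1 : ℕ) : ℝ) := by exact_mod_cast (show d ≤ m + 1 by omega)
    push_cast at hma
    have ha : 0 ≤ (m : ℝ) - d + 1 := by linarith
    have e : (d : ℝ) / 2 * (0 + (m.choose d : ℝ) + d * ((m : ℝ) - d + 3)) =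
        (((m : ℝ) - d + 1) * (m.choose (d - 1) : ℝ) + (d : ℝ) ^ 2 * ((m : ℝ) - d + 3)) / 2 := by
      linear_combination (1 / 2) * hu
    rw [e]
    have hc2 : m + 1 = d ∨ m = d ∨ d + 1 ≤ m := by omega
    rcases hc2 with h3 | h3 | h3
    · rw [e0 hd1 h3]
      have : (m : ℝ) - d + 1 = 0 := by rw [← h3]; push_cast; ring
      nlinarith
    · rw [e1 hd1 h3, h3]
      nlinarith
    · have h4 : ((d + 1 : ℕ) : ℝ) ≤ (m : ℝ) := by exact_mod_cast h3
      push_cast at h4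
      have h5 : 2 * (m.choose (d - 1) : ℝ) ≤ ((m : ℝ) - d + 1) * (m.choose (d - 1) : ℝ) :=
        mul_le_mul_of_nonneg_right (by linarith) (by linarith)
      have h6 : 0 ≤ (d : ℝ) ^ 2 * ((m : ℝ) - d + 3) := mul_nonneg (sq_nonneg _) (by linarith)
      linarith
  · rw [vm_mid (by omega) (by omega)]
    rcases Nat.lt_or_ge d (J + p) with h3 | h3
    · have h4 : J + p = d + 1 := by omega
      have g := GG_lo (n := d + k) (d := d) (s := J + p) (δ := δ) (t := 0)
        (by rw [h4]; push_cast; linarith) (by rw [h4, ch1]) (hn _)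
      refine le_trans ?_ g
      nlinarith
    · have h4 : ((J + p : ℕ) : ℝ) ≤ d := by exact_mod_cast h3
      have g := GG_lo (n := d + k) (d := d) (s := J + p) (δ := δ) (t := 1)
        (by linarith) (hn _) (hn _)
      refine le_trans ?_ g
      nlinarith
  · subst h
    rw [vm_right (by omega) (by omega), e1 hd1 rfl]
    have hp' : p = 0 ∨ p = 1 ∨ p = 2 := by omega
    rcases hp' with rfl | rfl | rfl
    · have g := GG_lo (n := J + k) (d := J) (s := J + 0) (δ := δ) (t := 1)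
        (by push_cast; linarith) (by rw [Nat.add_zero, ch0]) (hn _)
      refine le_trans ?_ g
      nlinarith
    · have g := GG_lo (n := J + k) (d := J) (s := J + 1) (δ := δ) (t := 0)
        (by push_cast; linarith) (by rw [ch1]) (hn _)
      refine le_trans ?_ g
      nlinarith
    · have g := GG_lo (n := J + k) (d := J) (s := J + 2) (δ := δ) (t := -1)
        (by push_cast; linarith) (by rw [ch2]) (hn _)
      refine le_trans ?_ g
      obtain ⟨y, hy, hxy⟩ : ∃ y : ℝ, 0 ≤ y ∧ (J : ℝ) = y + 6 := ⟨J - 6, by linarith, by ring⟩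
      rw [hxy, ← sub_nonneg]
      ring_nf
      positivity
  · rw [vm_right (by omega) (by omega), e2 hd1 h]
    have hp' : p = 0 ∨ p = 1 ∨ p = 2 := by omega
    rcases hp' with rfl | rfl | rfl
    · have g := GG_lo (n := d + k) (d := d) (s := J + 0) (δ := δ) (t := 0)
        (by rw [h]; push_cast; linarith) (by rw [Nat.add_zero, h, ch1]) (hn _)
      refine le_trans ?_ g
      nlinarith
    · have g := GG_lo (n := d + k) (d := d) (s := J + 1) (δ := δ) (t := -1)
        (by rw [h]; push_cast; linarith) (by rw [show J + 1 = d + 2 by omega, ch2]) (hn _)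
      refine le_trans ?_ g
      obtain ⟨y, hy, hxy⟩ : ∃ y : ℝ, 0 ≤ y ∧ (d : ℝ) = y + 6 := ⟨d - 6, by linarith, by ring⟩
      rw [hxy, ← sub_nonneg]
      ring_nf
      positivity
    · have g := GG_lo (n := d + k) (d := d) (s := J + 2) (δ := δ) (t := -2)
        (by rw [h]; push_cast; linarith) (by rw [show J + 2 = d + 3 by omega, ch3]) (hn _)
      refine le_trans ?_ g
      obtain ⟨y, hy, hxy⟩ : ∃ y : ℝ, 0 ≤ y ∧ (d : ℝ) = y + 6 := ⟨d - 6, by linarith, by ring⟩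
      rw [hxy, ← sub_nonneg]
      ring_nf
      positivity
  · rw [vm_right (by omega) (by omega)]
    have g := GG_lo (n := d + k) (d := d) (s := J + p) (δ := δ)
      (t := (d : ℝ) + 1 - ((J + p : ℕ) : ℝ)) (by linarith) (le_refl _) (hn _)
    refine le_trans ?_ g
    have hu := up_right (d := d) (m := J + p) hd1 (by omega)
    have hB := ch_mono (d - 1) (show J ≤ J + p by omega)
    have hB0 : (d : ℝ) ^ 2 ≤ (J.choose (d - 1) : ℝ) := by
      refine le_trans ?_ (ch_mono (d - 1) h)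
      rw [e3 hd1 rfl]
      nlinarith
    have hj : (2:ℝ) ≤ (J : ℝ) - d := by
      have : ((d + 2 : ℕ) : ℝ) ≤ J := by exact_mod_cast h
      push_cast at this; linarith
    have hp0 : (0:ℝ) ≤ (p : ℝ) := Nat.cast_nonneg _
    push_cast at hu ⊢
    have h1 : ((J : ℝ) + p - d + 1) * (J.choose (d - 1) : ℝ) ≤
        ((J : ℝ) + p - d + 1) * ((J + p).choose (d - 1) : ℝ) :=
      mul_le_mul_of_nonneg_left hB (by linarith)
    have h2 : (d : ℝ) ^ 2 * ((J : ℝ) + p - d - 1) ≤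
        (J.choose (d - 1) : ℝ) * ((J : ℝ) + p - d - 1) :=
      mul_le_mul_of_nonneg_right hB0 (by linarith)
    have e : (d : ℝ) / 2 * (((J + p).choose d : ℝ) + 0 + d * ((d : ℝ) + 1 - ((J : ℝ) + p))) =
        (((J : ℝ) + p - d + 1) * ((J + p).choose (d - 1) : ℝ) -
          (d : ℝ) ^ 2 * ((J : ℝ) + p - d - 1)) / 2 := by
      linear_combination (1 / 2) * hu
    rw [e]
    linarith

/-- `k = 4`, `δ = 1`. -/
theorem good2_four {d : ℕ} (hd : 6 ≤ d) : ∀ J ≤ d,
    ∃ τ, Five (fun p => Vm (d + 4 - 2) (d - 1) (J + p))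
      (fun s => Gf (d + 4) d (1 / 2) (DG d 1) (J + s)) τ := by
  intro J hJ
  have hcases : J + 4 = 4 ∨ J + 3 = 4 ∨ J + 2 = 4 ∨ (4 ≤ J + 1 ∧ J + 3 ≤ d) ∨ J + 2 = d ∨
    J + 1 = d ∨ J = d := by omega
  rcases hcases with h | h | h | ⟨h1, h2⟩ | h | h | h
  · exact cL1 le_rfl le_rfl (by omega) h
  · exact cL0 le_rfl le_rfl (by omega) h
  · exact cLm le_rfl le_rfl (by omega) h
  · exact cM le_rfl le_rfl (by omega) h1 h2
  · exact cR2 le_rfl le_rfl (by omega) h
  · exact cR1 le_rfl le_rfl (by omega) h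
  · exact cR0 le_rfl le_rfl (by omega) h

/-- `k ≥ 5`, `δ = 2`. -/
theorem good2_five {d k r : ℕ} (hk : 5 ≤ k) (hkd : k + 2 ≤ d) (hr : d + k = 2 * r + 4) :
    ∀ J, J + 4 ≤ d + k → ∃ τ, Five (fun p => Vm (d + k - 2) (d - 1) (J + p))
      (fun s => Gf (d + k) d (1 / 2) (DG d 2) (J + s)) τ := by
  intro J hJ
  have h12 : (1:ℝ) ≤ 2 := by norm_num
  have hcases : J + 6 ≤ k ∨ J + 5 = k ∨ J + 4 = k ∨ J + 3 = k ∨ J + 2 = k ∨
    (k ≤ J + 1 ∧ J + 3 ≤ d) ∨ J + 2 = d ∨ J + 1 = d ∨ J = d ∨ J = d + 1 ∨ d + 2 ≤ J := by omega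
  rcases hcases with h | h | h | h | h | ⟨h1, h2⟩ | h | h | h | h | h
  · exact cL3 hkd hr h
  · exact cL2 hkd h
  · exact cL1 h12 (by omega) hkd h
  · exact cL0 h12 (by omega) hkd h
  · exact cLm h12 (by omega) hkd h
  · exact cM h12 (by omega) hkd h1 h2
  · exact cR2 h12 (by omega) hkd h
  · exact cR1 h12 (by omega) hkd h
  · exact cR0 h12 (by omega) hkd h
  · exact cR3 hk hkd h
  · exact cR4 hkd h hJ

end Pool.Agent.HHalfB
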