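import Pool.Agent.HHalfB.BT1
import Pool.Agent.HHalfB.BPair

/-!
# Nodes of different pairs omitted
-/

set_option autoImplicit false

namespace Pool.Agent.HHalfB

open Polynomial Set Complex ComplexConjugate Pool.Agent.HHalf

/-- `mix l P · pair(z) · pair(z')` as a mixture. -/
theorem mix_pair_pair (l : ℕ) (P : ℕ → ℝ) (z z' : ℂ) :
    mix l P * ((X - C z) * (X - C (conj z))) * ((X - C z') * (X - C (conj z'))) =
      ∑ b ∈ Finset.range (l + 1) ×ˢ (Finset.range 3 ×ˢ Finset.range 3),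
        C ((P b.1 * (pz z b.2.1 * pz z' b.2.2) : ℝ) : ℂ) * bb ℂ (l + 4) (b.1 + (b.2.1 + b.2.2)) := by
  rw [mix, Finset.sum_mul, Finset.sum_mul, Finset.sum_product]
  apply Finset.sum_congr rfl
  intro J hJ
  have hJ' : J ≤ l := by have := Finset.mem_range.1 hJ; omega
  have hb : C (P J : ℂ) * bb ℂ l J * ((X - C z) * (X - C (conj z))) *
      ((X - C z') * (X - C (conj z'))) =
      C (P J : ℂ) * ((bb ℂ l J * ((X - C z) * (X - C (conj z)))) *
      ((X - C z') * (X - C (conj z')))) := by ring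
  rw [hb, bb_mul_pair hJ', Finset.sum_product, Finset.sum_mul, Finset.mul_sum]
  apply Finset.sum_congr rfl
  intro p hp
  have hp' : p ≤ 2 := by have := Finset.mem_range.1 hp; omega
  rw [mul_assoc, bb_mul_pair (by omega : J + p ≤ l + 2), Finset.mul_sum,
    Finset.mul_sum]
  apply Finset.sum_congr rfl
  intro q _
  rw [Complex.ofReal_mul, Complex.ofReal_mul, C_mul, C_mul]
  have : J + (p + q) = J + p + q := by omega
  rw [this]
  ring

theorem T2' {l k d : ℕ} {P : ℕ → ℝ} (hP : ∀ J, 0 ≤ P J) {z z' : ℂ}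
    (hz : ‖z‖ ≤ 1) (hz' : ‖z'‖ ≤ 1) (hkd : k + 1 + d = l + 4) (hd1 : 1 ≤ d) {θ : ℝ} {D : ℕ → ℝ}
    (hG : ∀ J ≤ l, ∃ τ, Five (fun p => Vm (l + 2) (d - 1) (J + p))
      (fun s => Gf (l + 4) d θ D (J + s)) τ)
    {x : ℝ} (hx : x ∈ Icc (-1:ℝ) 1) :
    ‖(hasseDeriv k (mix l P * ((X - C z) * (X - C z')))).eval (x : ℂ)‖ ≤ d / 2 *
      (θ * ‖(hasseDeriv (k + 1) (mix l P * ((X - C z) * (X - C (conj z))) *
          ((X - C z') * (X - C (conj z'))))).eval 1‖ +
       (1 - θ) * ‖(hasseDeriv (k + 1) (mix l P * ((X - C z) * (X - C (conj z))) *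
          ((X - C z') * (X - C (conj z'))))).eval (-1)‖) +
      2 ^ (d - 1) * d * ∑ b ∈ Finset.range (l + 1) ×ˢ (Finset.range 3 ×ˢ Finset.range 3),
        P b.1 * (pz z b.2.1 * pz z' b.2.2) * D (b.1 + (b.2.1 + b.2.2)) := by
  have e1 : mix l P * ((X - C z) * (X - C z')) =
      ∑ b ∈ Finset.range (l + 1) ×ˢ Finset.range 3,
        C ((P b.1 : ℂ) * az z z' b.2) * bb ℂ (l + 2) (b.1 + b.2) := by
    rw [mix, Finset.sum_mul, Finset.sum_product]
    apply Finset.sum_congr rfl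
    intro J hJ
    have hJ' : J ≤ l := by have := Finset.mem_range.1 hJ; omega
    rw [mul_assoc, bb_mul_az hJ', Finset.mul_sum]
    apply Finset.sum_congr rfl
    intro p _
    rw [C_mul]
    ring
  have hmem1 : ∀ b ∈ Finset.range (l + 1) ×ˢ Finset.range 3, b.1 + b.2 ≤ l + 2 := by
    intro b hb
    obtain ⟨h1, h2⟩ := Finset.mem_product.1 hb
    have := Finset.mem_range.1 h1
    have := Finset.mem_range.1 h2
    omega
  have hmem2 : ∀ b ∈ Finset.range (l + 1) ×ˢ (Finset.range 3 ×ˢ Finset.range 3),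
      b.1 + (b.2.1 + b.2.2) ≤ l + 4 := by
    intro b hb
    obtain ⟨h1, h2⟩ := Finset.mem_product.1 hb
    obtain ⟨h3, h4⟩ := Finset.mem_product.1 h2
    have := Finset.mem_range.1 h1
    have := Finset.mem_range.1 h3
    have := Finset.mem_range.1 h4
    omega
  have hnn : ∀ b ∈ Finset.range (l + 1) ×ˢ (Finset.range 3 ×ˢ Finset.range 3),
      0 ≤ P b.1 * (pz z b.2.1 * pz z' b.2.2) := fun b _ =>
    mul_nonneg (hP _) (mul_nonneg (pz_nonneg hz _) (pz_nonneg hz' _))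
  have hL := mid_all (Finset.range (l + 1) ×ˢ Finset.range 3)
    (fun b => (P b.1 : ℂ) * az z z' b.2) (fun b => b.1 + b.2) (n := l + 2) (m := k) hmem1
    (by omega) hx
  rw [← e1] at hL
  have hk1 : l + 2 - k = d - 1 := by omega
  rw [hk1] at hL
  have hcol := collect (Finset.range (l + 1) ×ˢ (Finset.range 3 ×ˢ Finset.range 3))
    (fun b : ℕ × (ℕ × ℕ) => P b.1 * (pz z b.2.1 * pz z' b.2.2)) hnn
    (fun b : ℕ × (ℕ × ℕ) => b.1 + (b.2.1 + b.2.2)) (n := l + 4) (m := k + 1)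
    (d := d) hmem2 (by omega) (by omega) hd1 θ D
  have hcol' : 2 ^ (d - 1) * ∑ b ∈ Finset.range (l + 1) ×ˢ (Finset.range 3 ×ˢ Finset.range 3),
      P b.1 * (pz z b.2.1 * pz z' b.2.2) * Gf (l + 4) d θ D (b.1 + (b.2.1 + b.2.2)) = _ := hcol
  rw [← mix_pair_pair] at hcol'
  rw [← hcol']
  refine hL.trans ?_
  refine mul_le_mul_of_nonneg_left ?_ (by positivity)
  rw [Finset.sum_product, Finset.sum_product]
  refine Finset.sum_le_sum fun J hJ => ?_
  have hJ' : J ≤ l := by have := Finset.mem_range.1 hJ; omega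
  obtain ⟨τ, hτ⟩ := hG J hJ'
  have hM : ∀ s, 0 ≤ (fun p => Vm (l + 2) (d - 1) (J + p)) s := fun s =>
    zero_le_one.trans (le_max_left _ _)
  have h1 := pair_gen hM hτ hz hz'
  have h2 := mul_le_mul_of_nonneg_left h1 (hP J)
  have h3 : ∑ p ∈ Finset.range 3, ‖(P J : ℂ) * az z z' p‖ * Vm (l + 2) (d - 1) (J + p) =
      P J * ∑ p ∈ Finset.range 3, ‖az z z' p‖ * Vm (l + 2) (d - 1) (J + p) := by
    rw [Finset.mul_sum]
    apply Finset.sum_congr rfl
    intro p _
    rw [norm_mul, Complex.norm_real, Real.norm_eq_abs, abs_of_nonneg (hP J)]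
    ring
  have h4 : ∑ b ∈ Finset.range 3 ×ˢ Finset.range 3,
      P J * (pz z b.1 * pz z' b.2) * Gf (l + 4) d θ D (J + (b.1 + b.2)) =
      P J * ∑ p ∈ Finset.range 3, ∑ q ∈ Finset.range 3,
        pz z p * pz z' q * Gf (l + 4) d θ D (J + (p + q)) := by
    rw [Finset.sum_product, Finset.mul_sum]
    apply Finset.sum_congr rfl
    intro p _
    rw [Finset.mul_sum]
    apply Finset.sum_congr rfl
    intro q _
    ring
  rw [h3, h4]
  exact h2

end Pool.Agent.HHalfB
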