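import Pool.Agent.HHalfB.BMean
import Pool.Agent.HHalfB.BT2

/-!
# The inequality for `|H_k ω_ij|` with a linear compensation
-/

set_option autoImplicit false

namespace Pool.Agent.HHalfB

open Polynomial Set Complex ComplexConjugate Pool.Agent.HHalf

/-- The two families of binomial inequalities for `n`, `d`, `θ`, `D`. -/
def GoodAll (n d : ℕ) (θ : ℝ) (D : ℕ → ℝ) : Prop :=
  (∀ J ≤ n - 2, ∀ p ≤ 2, Vm (n - 2) (d - 1) J ≤ Gf n d θ D (J + p)) ∧
  (∀ J, J + 4 ≤ n → ∃ τ, Five (fun p => Vm (n - 2) (d - 1) (J + p))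
    (fun s => Gf n d θ D (J + s)) τ)

theorem Vm_refl {l e j : ℕ} (hj : j ≤ l) : Vm l e (l - j) = Vm l e j := by
  unfold Vm
  rw [show l - (l - j) = j by omega, max_comm ((l - j).choose e : ℝ)]

theorem Gf_refl {n d : ℕ} {θ : ℝ} {D : ℕ → ℝ} {s : ℕ} (hs : s ≤ n) :
    Gf n d θ D (n - s) = Gf n d (1 - θ) (fun s => D (n - s)) s := by
  unfold Gf
  rw [show n - (n - s) = s by omega]
  ring

/-- Reflection. -/
theorem GoodAll.refl {n d : ℕ} {θ : ℝ} {D : ℕ → ℝ} (hn : 4 ≤ n) (h : GoodAll n d θ D) :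
    GoodAll n d (1 - θ) (fun s => D (n - s)) := by
  constructor
  · intro J hJ p hp
    have h1 := h.1 (n - 2 - J) (by omega) (2 - p) (by omega)
    rw [Vm_refl hJ, show n - 2 - J + (2 - p) = n - (J + p) by omega, Gf_refl (by omega)] at h1
    exact h1
  · intro J hJ
    obtain ⟨τ, hτ⟩ := h.2 (n - 4 - J) (by omega)
    refine ⟨τ⁻¹, hτ.refl ?_ ?_⟩
    · intro s hs
      show Vm (n - 2) (d - 1) (n - 4 - J + s) = Vm (n - 2) (d - 1) (J + (2 - s))
      rw [show n - 4 - J + s = n - 2 - (J + (2 - s)) by omega, Vm_refl (by omega)]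
    · intro s hs
      show Gf n d θ D (n - 4 - J + s) = Gf n d (1 - θ) (fun s => D (n - s)) (J + (4 - s))
      rw [show n - 4 - J + s = n - (J + (4 - s)) by omega, Gf_refl (by omega)]

/-- Mean of the compensation for a mixture that equals `ω`. -/
theorem comp_le {β : Type*} (S : Finset β) (a : β → ℝ) (J : β → ℕ) {N : ℕ} {L : Fin N → ℂ}
    (hN : 1 ≤ N) (hJ : ∀ b ∈ S, J b ≤ 2 * N)
    (h : om (zL L) = ∑ b ∈ S, C (a b : ℂ) * bb ℂ (2 * N) (J b)) :
    ∑ b ∈ S, a b = 1 ∧ ∑ b ∈ S, a b * (J b : ℝ) = N - ∑ a, (L a).re := by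
  obtain ⟨h0, h1⟩ := om_coeff L hN
  obtain ⟨h2, h3⟩ := mean_mix S a J hJ (by omega) h0 h1 h
  refine ⟨h2, ?_⟩
  rw [h3]
  push_cast
  ring

/-- The inequality (T) with `θ`, `D`, for a compensation with nonpositive mean. -/
theorem TineqD {N : ℕ} {L : Fin N → ℂ} (hL : ∀ a, ‖L a‖ ≤ 1) {k d : ℕ} (hkd : k + 1 + d = 2 * N)
    (hd1 : 1 ≤ d) {θ : ℝ} {D : ℕ → ℝ} (hG : GoodAll (2 * N) d θ D)
    (hD : ∃ α β : ℝ, (∀ s ≤ 2 * N, D s = α + β * s) ∧ α + β * (N - ∑ a, (L a).re) ≤ 0)
    {x : ℝ} (hx : x ∈ Icc (-1:ℝ) 1) {i j : Fin N × Bool} (hij : i ≠ j) :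
    ‖(hasseDeriv k (omij (zL L) i j)).eval (x : ℂ)‖ ≤ d / 2 *
      (θ * ‖(hasseDeriv (k + 1) (om (zL L))).eval 1‖ +
        (1 - θ) * ‖(hasseDeriv (k + 1) (om (zL L))).eval (-1)‖) := by
  obtain ⟨α, β, hαβ, hneg⟩ := hD
  -- the mean of the compensation
  have hmean : ∀ {γ : Type} (S : Finset γ) (a : γ → ℝ) (J : γ → ℕ),
      (∀ b ∈ S, J b ≤ 2 * N) → 1 ≤ N →
      om (zL L) = ∑ b ∈ S, C (a b : ℂ) * bb ℂ (2 * N) (J b) →
      ∑ b ∈ S, a b * D (J b) ≤ 0 := by
    intro γ S a J hJ hN h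
    obtain ⟨h0, h1⟩ := comp_le S a J hN hJ h
    have e : ∑ b ∈ S, a b * D (J b) = α * ∑ b ∈ S, a b + β * ∑ b ∈ S, a b * (J b : ℝ) := by
      rw [Finset.mul_sum, Finset.mul_sum, ← Finset.sum_add_distrib]
      refine Finset.sum_congr rfl fun b hb => ?_
      rw [hαβ _ (hJ b hb)]
      ring
    rw [e, h0, h1, mul_one]
    exact hneg
  have hfin : ∀ {A B t : ℝ}, A ≤ B + 2 ^ (d - 1) * d * t → t ≤ 0 → A ≤ B := by
    intro A B t h1 h2
    have : 2 ^ (d - 1) * (d : ℝ) * t ≤ 0 :=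
      mul_nonpos_of_nonneg_of_nonpos (by positivity) h2
    linarith
  obtain ⟨a, b⟩ := i
  obtain ⟨a', b'⟩ := j
  by_cases haa : a = a'
  · subst haa
    have hb : b' = !b := by
      cases b <;> cases b' <;> simp_all
    subst hb
    obtain ⟨P, hP, hprod⟩ := rep_prod (Finset.univ.erase a) L hL
    have hcard : (Finset.univ.erase a).card = N - 1 := by
      rw [Finset.card_erase_of_mem (Finset.mem_univ a), Finset.card_univ, Fintype.card_fin]
    rw [hcard] at hprod
    have h1 : ∏ a' ∈ Finset.univ.erase a, pr L a' = mix (2 * (N - 1)) P := hprod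
    have hom : om (zL L) = mix (2 * (N - 1)) P * ((X - C (L a)) * (X - C (conj (L a)))) := by
      rw [om_zL, ← h1, ← Finset.prod_erase_mul Finset.univ (pr L) (Finset.mem_univ a)]
      rfl
    have hN : 1 ≤ N := by have := a.2; omega
    have e2 : 2 * (N - 1) + 2 = 2 * N := by omega
    have hT := T1' (l := 2 * (N - 1)) (k := k) (d := d) hP (hL a) (by omega) hd1 (θ := θ) (D := D)
      (by
        intro J hJ p hp
        rw [e2]
        have := hG.1 J (by omega) p hp
        rw [show 2 * N - 2 = 2 * (N - 1) by omega] at this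
        exact this) hx
    rw [omij_same, h1, hom]
    refine hfin hT ?_
    refine hmean (Finset.range (2 * (N - 1) + 1) ×ˢ Finset.range 3)
      (fun b => P b.1 * pz (L a) b.2) (fun b => b.1 + b.2) ?_ hN ?_
    · intro b hb
      have h1 := Finset.mem_range.mp (Finset.mem_product.mp hb).1
      have h2 := Finset.mem_range.mp (Finset.mem_product.mp hb).2
      show b.1 + b.2 ≤ 2 * N
      omega
    · rw [hom, T1_mix_pair, e2]
  · obtain ⟨P, hP, hprod⟩ := rep_prod ((Finset.univ.erase a).erase a') L hL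
    have ha' : a' ∈ Finset.univ.erase a := Finset.mem_erase.2 ⟨fun h => haa h.symm, Finset.mem_univ _⟩
    have hcard : ((Finset.univ.erase a).erase a').card = N - 2 := by
      rw [Finset.card_erase_of_mem ha', Finset.card_erase_of_mem (Finset.mem_univ a),
        Finset.card_univ, Fintype.card_fin]
      omega
    have hN : 2 ≤ N := by
      have h1 := a.2
      have h2 := a'.2
      have h3 : (a : ℕ) ≠ a' := fun h => haa (Fin.ext h)
      omega
    rw [hcard] at hprod
    have h1 : ∏ c ∈ (Finset.univ.erase a).erase a', pr L c = mix (2 * (N - 2)) P := hprod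
    have hom : om (zL L) = mix (2 * (N - 2)) P *
        ((X - C (conj (zL L (a, b)))) * (X - C (conj (conj (zL L (a, b)))))) *
        ((X - C (conj (zL L (a', b')))) * (X - C (conj (conj (zL L (a', b')))))) := by
      rw [om_zL, ← h1, ← Finset.prod_erase_mul Finset.univ (pr L) (Finset.mem_univ a),
        ← Finset.prod_erase_mul (Finset.univ.erase a) (pr L) ha', pr_eq L a b, pr_eq L a' b']
      simp only [Complex.conj_conj]
      ring
    have e4 : 2 * (N - 2) + 4 = 2 * N := by omega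
    have e2 : 2 * (N - 2) + 2 = 2 * N - 2 := by omega
    have hz1 : ‖conj (zL L (a, b))‖ ≤ 1 := by rw [Complex.norm_conj]; exact norm_zL hL _
    have hz2 : ‖conj (zL L (a', b'))‖ ≤ 1 := by rw [Complex.norm_conj]; exact norm_zL hL _
    have hT := T2' (l := 2 * (N - 2)) (k := k) (d := d) hP hz1 hz2 (by omega) hd1 (θ := θ) (D := D)
      (by
        intro J hJ
        rw [e4, e2]
        exact hG.2 J (by omega)) hx
    rw [omij_diff L haa, h1, hom]
    refine hfin hT ?_
    refine hmean (Finset.range (2 * (N - 2) + 1) ×ˢ (Finset.range 3 ×ˢ Finset.range 3))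
      (fun c => P c.1 * (pz (conj (zL L (a, b))) c.2.1 * pz (conj (zL L (a', b'))) c.2.2))
      (fun c => c.1 + (c.2.1 + c.2.2)) ?_ (by omega) ?_
    · intro c hc
      obtain ⟨h1, h2⟩ := Finset.mem_product.1 hc
      obtain ⟨h3, h4⟩ := Finset.mem_product.1 h2
      have := Finset.mem_range.1 h1
      have := Finset.mem_range.1 h3
      have := Finset.mem_range.1 h4
      show c.1 + (c.2.1 + c.2.2) ≤ 2 * N
      omega
    · rw [hom, mix_pair_pair, e4]

end Pool.Agent.HHalfB
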