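import Pool.Agent.HHalfB.BVals

/-!
# The inequalities for `k = 1`
-/

set_option autoImplicit false

namespace Pool.Agent.HHalfB

open Pool.Agent.HHalf

/-- Linear compensation. -/
noncomputable def Dl (lam c : ℝ) (s : ℕ) : ℝ := lam * (c - s)

theorem Gf_ge {n d : ℕ} {θ : ℝ} {D : ℕ → ℝ} {s : ℕ} (h1 : 0 ≤ 1 - θ) :
    (d : ℝ) * (θ * (s.choose d : ℝ) + D s) ≤ Gf n d θ D s := by
  unfold Gf
  refine mul_le_mul_of_nonneg_left ?_ (Nat.cast_nonneg d)
  have : 0 ≤ (1 - θ) * ((n - s).choose d : ℝ) := mul_nonneg h1 (Nat.cast_nonneg _)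
  linarith

theorem Gf_ge' {n d : ℕ} {θ : ℝ} {D : ℕ → ℝ} {s : ℕ} (h0 : 0 ≤ θ) :
    (d : ℝ) * ((1 - θ) * ((n - s).choose d : ℝ) + D s) ≤ Gf n d θ D s := by
  unfold Gf
  refine mul_le_mul_of_nonneg_left ?_ (Nat.cast_nonneg d)
  have : 0 ≤ θ * (s.choose d : ℝ) := mul_nonneg h0 (Nat.cast_nonneg _)
  linarith

/-- The compensation for `k = 1`. -/
noncomputable def D1 (d : ℕ) : ℕ → ℝ := Dl (4 / d) ((d : ℝ) - 1 / 2)

theorem G1_val {d s : ℕ} (hd : 3 ≤ d) :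
    Gf (d + 1) d 1 (D1 d) s = d * (s.choose d : ℝ) + 4 * ((d : ℝ) - 1 / 2 - s) := by
  have h3 : (3:ℝ) ≤ (d : ℝ) := by exact_mod_cast hd
  unfold Gf D1 Dl
  field_simp
  ring

theorem G1_lt {d s : ℕ} (hd : 3 ≤ d) (hs : s < d) : 2 ≤ Gf (d + 1) d 1 (D1 d) s := by
  rw [G1_val hd]
  have h1 : (s : ℝ) + 1 ≤ d := by exact_mod_cast hs
  have h2 : (0:ℝ) ≤ (s.choose d : ℝ) := Nat.cast_nonneg _
  have h3 : (0:ℝ) ≤ (d : ℝ) := Nat.cast_nonneg _
  have h4 := mul_nonneg h3 h2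
  linarith

theorem G1_eq {d : ℕ} (hd : 3 ≤ d) : (d : ℝ) - 2 ≤ Gf (d + 1) d 1 (D1 d) d := by
  rw [G1_val hd, ch0]
  linarith

theorem G1_gt {d : ℕ} (hd : 3 ≤ d) : (6 : ℝ) ≤ Gf (d + 1) d 1 (D1 d) (d + 1) := by
  rw [G1_val hd, ch1]
  have h3 : (3:ℝ) ≤ (d : ℝ) := by exact_mod_cast hd
  push_cast
  nlinarith

theorem good1_one {d : ℕ} (hd : 3 ≤ d) : ∀ J ≤ d - 1, ∀ p ≤ 2,
    Vm (d - 1) (d - 1) J ≤ Gf (d + 1) d 1 (D1 d) (J + p) := by
  intro J hJ p hp
  have h3 : (3:ℝ) ≤ (d : ℝ) := by exact_mod_cast hd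
  rw [vm_mid hJ (by omega)]
  rcases lt_trichotomy (J + p) d with h | h | h
  · exact le_trans (by linarith) (G1_lt hd h)
  · rw [h]; exact le_trans (by linarith) (G1_eq hd)
  · obtain h' : J + p = d + 1 := by omega
    rw [h']; exact le_trans (by norm_num) (G1_gt hd)

theorem good2_one {d : ℕ} (hd : 3 ≤ d) : ∀ J, J + 3 ≤ d →
    ∃ τ, Five (fun p => Vm (d - 1) (d - 1) (J + p)) (fun s => Gf (d + 1) d 1 (D1 d) (J + s)) τ := by
  intro J hJ
  have h3 : (3:ℝ) ≤ (d : ℝ) := by exact_mod_cast hd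
  have hV : ∀ p ≤ 2, Vm (d - 1) (d - 1) (J + p) = 1 := fun p hp => vm_mid (by omega) (by omega)
  have hd4 : J + 4 = d → (4:ℝ) ≤ d := fun h => by
    have : 4 ≤ d := by omega
    exact_mod_cast this
  have v0 := hV 0 (by norm_num)
  have v1 := hV 1 (by norm_num)
  have v2 := hV 2 (by norm_num)
  refine ⟨1, one_pos, ?_, ?_, ?_, ?_, ?_⟩
  · simp only [v0, v1]
    have := G1_lt (d := d) (s := J + 0) hd (by omega)
    linarith
  · simp only [v0, v1]
    have := G1_lt (d := d) (s := J + 1) hd (by omega)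
    linarith
  · simp only [v0, v1, v2]
    have := G1_lt (d := d) (s := J + 2) hd (by omega)
    linarith
  · simp only [v1, v2]
    rcases eq_or_lt_of_le hJ with h | h
    · rw [h]
      have := G1_eq hd
      linarith
    · have := G1_lt (d := d) (s := J + 3) hd (by omega)
      linarith
  · simp only [v1, v2]
    rcases lt_trichotomy (J + 4) d with h | h | h
    · have := G1_lt (d := d) (s := J + 4) hd (by omega)
      linarith
    · rw [h]
      have := G1_eq hd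
      have := hd4 h
      linarith
    · have h' : J + 4 = d + 1 := by omega
      rw [h']
      have := G1_gt hd
      linarith

end Pool.Agent.HHalfB
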