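import Pool.Agent.HHalfB.BTwo

/-!
# The inequalities for `k = 3` (`θ = 1`, `D(s) = d - s`)
-/

set_option autoImplicit false

namespace Pool.Agent.HHalfB

open Pool.Agent.HHalf

theorem V3_0 {d : ℕ} (hd : 5 ≤ d) : Vm (d + 1) (d - 1) 0 = (d : ℝ) * (d + 1) / 2 := by
  rw [vm_left (by omega) (by omega)]
  obtain ⟨e, rfl⟩ : ∃ e, d = e + 1 := ⟨d - 1, by omega⟩
  rw [Nat.add_sub_cancel, Nat.sub_zero, show e + 1 + 1 = e + 2 by omega, ch2]
  push_cast; ring

theorem V3_1 {d : ℕ} (hd : 5 ≤ d) : Vm (d + 1) (d - 1) 1 = (d : ℝ) := by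
  rw [vm_left (by omega) (by omega)]
  obtain ⟨e, rfl⟩ : ∃ e, d = e + 1 := ⟨d - 1, by omega⟩
  rw [show e + 1 + 1 - 1 = e + 1 by omega, show e + 1 - 1 = e by omega, ch1]
  push_cast; ring

theorem V3_mid {d J : ℕ} (h1 : 2 ≤ J) (h2 : J + 1 ≤ d) : Vm (d + 1) (d - 1) J = 1 :=
  vm_mid (by omega) (by omega)

theorem V3_d {d : ℕ} (hd : 5 ≤ d) : Vm (d + 1) (d - 1) d = (d : ℝ) := by
  rw [vm_right (by omega) (by omega)]
  obtain ⟨e, rfl⟩ : ∃ e, d = e + 1 := ⟨d - 1, by omega⟩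
  rw [Nat.add_sub_cancel, ch1]
  push_cast; ring

theorem V3_d1 {d : ℕ} (hd : 5 ≤ d) : Vm (d + 1) (d - 1) (d + 1) = (d : ℝ) * (d + 1) / 2 := by
  rw [vm_right (by omega) (by omega)]
  obtain ⟨e, rfl⟩ : ∃ e, d = e + 1 := ⟨d - 1, by omega⟩
  rw [Nat.add_sub_cancel, show e + 1 + 1 = e + 2 by omega, ch2]
  push_cast; ring

theorem good1_three {d : ℕ} (hd : 5 ≤ d) : ∀ J ≤ d + 1, ∀ p ≤ 2,
    Vm (d + 1) (d - 1) J ≤ Gf (d + 3) d 1 (D2 d) (J + p) := by
  intro J hJ p hp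
  have h5 : (5:ℝ) ≤ (d : ℝ) := by exact_mod_cast hd
  have hg := G2_ge (n := d + 3) (d := d) (s := J + p) (by omega) (by omega)
  have hcases : J = 0 ∨ J = 1 ∨ (2 ≤ J ∧ J + 1 ≤ d) ∨ J = d ∨ J = d + 1 := by omega
  rcases hcases with rfl | rfl | ⟨h1, h2⟩ | rfl | rfl
  · rw [V3_0 hd]
    obtain ⟨e, rfl⟩ : ∃ e, d = e + 2 := ⟨d - 2, by omega⟩
    have := G2_lt (n := e + 2 + 3) (d := e + 2) (s := 0 + p) e (by omega)
    refine le_trans ?_ this
    push_cast at h5 ⊢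
    nlinarith
  · rw [V3_1 hd]; exact hg
  · rw [V3_mid h1 h2]; linarith
  · rw [V3_d hd]; exact hg
  · rw [V3_d1 hd]
    have hp' : p = 0 ∨ p = 1 ∨ p = 2 := by omega
    rcases hp' with rfl | rfl | rfl
    · rw [Nat.add_zero, G2_1]; nlinarith
    · rw [show d + 1 + 1 = d + 2 by omega, G2_2]; nlinarith [mul_pos (show (0:ℝ) < d by linarith) (show (0:ℝ) < d by linarith)]
    · rw [show d + 1 + 2 = d + 3 by omega, G2_3]
      have h6 : (42:ℝ) ≤ ((d : ℝ) + 1) * (d + 2) := by nlinarith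
      have h7 : ((d : ℝ) + 1) / 2 ≤ ((d : ℝ) + 1) * (d + 2) * (d + 3) / 6 - 3 := by nlinarith
      nlinarith

theorem good2_three {d : ℕ} (hd : 5 ≤ d) : ∀ J, J + 1 ≤ d →
    ∃ τ, Five (fun p => Vm (d + 1) (d - 1) (J + p)) (fun s => Gf (d + 3) d 1 (D2 d) (J + s)) τ := by
  intro J hJ
  have h5 : (5:ℝ) ≤ (d : ℝ) := by exact_mod_cast hd
  have hcases : J = 0 ∨ J = 1 ∨ (2 ≤ J ∧ J + 3 ≤ d) ∨ J + 2 = d ∨ J + 1 = d := by omega
  rcases hcases with rfl | rfl | ⟨h1, h2⟩ | h | h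
  · have v0 : Vm (d + 1) (d - 1) (0 + 0) = (d : ℝ) * (d + 1) / 2 := V3_0 hd
    have v1 : Vm (d + 1) (d - 1) (0 + 1) = (d : ℝ) := V3_1 hd
    have v2 : Vm (d + 1) (d - 1) (0 + 2) = 1 := V3_mid (by omega) (by omega)
    have g0 := G2_lt' (n := d + 3) (d := d) (s := 0 + 0) (d : ℝ) (by push_cast; linarith)
    have g1 := G2_lt' (n := d + 3) (d := d) (s := 0 + 1) ((d : ℝ) - 1) (by push_cast; linarith)
    have g2 := G2_lt' (n := d + 3) (d := d) (s := 0 + 2) ((d : ℝ) - 2) (by push_cast; linarith)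
    have g3 := G2_lt' (n := d + 3) (d := d) (s := 0 + 3) ((d : ℝ) - 3) (by push_cast; linarith)
    have g4 := G2_lt' (n := d + 3) (d := d) (s := 0 + 4) ((d : ℝ) - 4) (by push_cast; linarith)
    refine ⟨2, two_pos, ?_, ?_, ?_, ?_, ?_⟩
    · simp only [v0, v1]; refine le_trans ?_ g0; nlinarith
    · simp only [v0, v1]; refine le_trans ?_ (mul_le_mul_of_nonneg_left g1 two_pos.le); nlinarith
    · simp only [v0, v1, v2]; refine le_trans ?_ (mul_le_mul_of_nonneg_left g2 two_pos.le); nlinarith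
    · simp only [v1, v2]; refine le_trans ?_ (mul_le_mul_of_nonneg_left g3 two_pos.le); nlinarith
    · simp only [v1, v2]; refine le_trans ?_ g4; nlinarith
  · have v0 : Vm (d + 1) (d - 1) (1 + 0) = (d : ℝ) := V3_1 hd
    have v1 : Vm (d + 1) (d - 1) (1 + 1) = 1 := V3_mid (by omega) (by omega)
    have v2 : Vm (d + 1) (d - 1) (1 + 2) = 1 := V3_mid (by omega) (by omega)
    have g0 := G2_lt (n := d + 3) (d := d) (s := 1 + 0) 2 (by omega)
    have g1 := G2_lt (n := d + 3) (d := d) (s := 1 + 1) 2 (by omega)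
    have g2 := G2_lt (n := d + 3) (d := d) (s := 1 + 2) 2 (by omega)
    have g3 := G2_ge (n := d + 3) (d := d) (s := 1 + 3) (by omega) (by omega)
    have g4 := G2_ge (n := d + 3) (d := d) (s := 1 + 4) (by omega) (by omega)
    push_cast at g0 g1 g2
    refine ⟨1, one_pos, ?_, ?_, ?_, ?_, ?_⟩
    · simp only [v0, v1]; linarith
    · simp only [v0, v1]; linarith
    · simp only [v0, v1, v2]; linarith
    · simp only [v1, v2]; linarith
    · simp only [v1, v2]; linarith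
  · exact five_mid (by omega) (by omega) (vm_mid (by omega) (by omega))
      (vm_mid (by omega) (by omega)) (vm_mid (by omega) (by omega))
  · refine five_R1 (by omega) h (vm_mid (by omega) (by omega))
      (vm_mid (by omega) (by omega)) ?_
    rw [h]; exact V3_d hd
  · have v0 : Vm (d + 1) (d - 1) (J + 0) = 1 := vm_mid (by omega) (by omega)
    have v1 : Vm (d + 1) (d - 1) (J + 1) = (d : ℝ) := by rw [h]; exact V3_d hd
    have v2 : Vm (d + 1) (d - 1) (J + 2) = (d : ℝ) * (d + 1) / 2 := by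
      rw [show J + 2 = d + 1 by omega]; exact V3_d1 hd
    have g0 := G2_ge (n := d + 3) (d := d) (s := J + 0) (by omega) (by omega)
    have g1 := G2_ge (n := d + 3) (d := d) (s := J + 1) (by omega) (by omega)
    have g2 : Gf (d + 3) d 1 (D2 d) (J + 2) = d * d := by
      rw [show J + 2 = d + 1 by omega]; exact G2_1
    have g3 : Gf (d + 3) d 1 (D2 d) (J + 3) = d * (((d : ℝ) + 1) * (d + 2) / 2 - 2) := by
      rw [show J + 3 = d + 2 by omega]; exact G2_2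
    have g4 : Gf (d + 3) d 1 (D2 d) (J + 4) =
        d * (((d : ℝ) + 1) * (d + 2) * (d + 3) / 6 - 3) := by
      rw [show J + 4 = d + 3 by omega]; exact G2_3
    have h6 : (42:ℝ) ≤ ((d : ℝ) + 1) * (d + 2) := by nlinarith
    refine ⟨1 / 2, by norm_num, ?_, ?_, ?_, ?_, ?_⟩
    · simp only [v0, v1]; linarith
    · simp only [v0, v1]; linarith
    · simp only [v0, v1, v2, g2]; nlinarith
    · simp only [v1, v2, g3]
      have h7 : ((d : ℝ) + 1) / 2 + 2 ≤ 2 * (((d : ℝ) + 1) * (d + 2) / 2 - 2) := by nlinarith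
      have h8 := mul_le_mul_of_nonneg_left h7 (show (0:ℝ) ≤ d by linarith)
      have h9 : (d : ℝ) / (1 / 2) = 2 * d := by ring
      rw [h9]
      linarith
    · simp only [v1, v2, g4]
      have h7 : ((d : ℝ) + 1) / 2 + 2 ≤ (((d : ℝ) + 1) * (d + 2) * (d + 3) / 6 - 3) := by nlinarith
      have h8 := mul_le_mul_of_nonneg_left h7 (show (0:ℝ) ≤ d by linarith)
      have h9 : (d : ℝ) / (1 / 2) = 2 * d := by ring
      rw [h9]
      linarith

end Pool.Agent.HHalfB
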