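import Pool.Agent.HHalf.AFinal
import Pool.Agent.HHalfB.BIneq
import Pool.Agent.HHalfB.BSmall
import Pool.Agent.HHalfB.BThree
import Pool.Agent.HHalfB.BGood

/-!
# Node lists whose mean is close to `1` or `-1`

`bal k` is a threshold: `1, 2, 3, 3, k - 2` for `k = 1, 2, 3, 4, ≥ 5` (for `k = 1` even `3/2`). If
`∑ (1 + Re L_a) ≤ bal k` or `∑ (1 - Re L_a) ≤ bal k` (sum over the pairs), the bound of the order `k`
holds at every point of `[-1, 1]`.
-/

set_option autoImplicit false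

namespace Pool.Agent.HHalfB

open Complex Set Metric ComplexConjugate Polynomial MeasureTheory Pool.Agent.ConjInterp
  Pool.Agent.HHalf

/-- Theorem A with the inequality `TineqD`. -/
theorem pointwiseD {N : ℕ} {L : Fin N → ℂ} (hL : ∀ a, ‖L a‖ ≤ 1) {k : ℕ} (hN : 1 ≤ N)
    (hk1 : 1 ≤ k) (hk : k < 2 * N) {θ : ℝ} (hθ0 : 0 ≤ θ) (hθ1 : θ ≤ 1) {D : ℕ → ℝ}
    (hG : GoodAll (2 * N) (2 * N - k) θ D)
    (hD : ∃ α β : ℝ, (∀ s ≤ 2 * N, D s = α + β * s) ∧ α + β * (N - ∑ a, (L a).re) ≤ 0)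
    {h : ℂ → ℂ} (hh : Differentiable ℂ h)
    (hb : ∀ w, ‖w‖ ≤ 1 → ‖iteratedDeriv (2 * N) (fun w => (om (zL L)).eval w * h w) w‖ ≤ 1)
    {x : ℝ} (hx : x ∈ Icc (-1:ℝ) 1) :
    ∃ y ∈ Icc (-1:ℝ) 1, ‖iteratedDeriv k (fun w => (om (zL L)).eval w * h w) (x:ℂ)‖ ≤
      (1 / ((2 * N).factorial : ℝ)) * ‖iteratedDeriv k (fun w => (om (zL L)).eval w) (y:ℂ)‖ := by
  obtain ⟨k', rfl⟩ : ∃ k', k = k' + 1 := ⟨k - 1, by omega⟩
  obtain ⟨d, hd⟩ : ∃ d, k' + 1 + d = 2 * N := ⟨2 * N - (k' + 1), by omega⟩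
  obtain ⟨n, hn⟩ : ∃ n, 2 * N = n + 1 := ⟨2 * N - 1, by omega⟩
  have hd1 : 1 ≤ d := by omega
  have hdd : 2 * N - (k' + 1) = d := by omega
  rw [hdd] at hG
  -- the three values
  set V : ℝ → ℝ := fun y => ‖(hasseDeriv (k' + 1) (om (zL L))).eval (y:ℂ)‖ with hV
  obtain ⟨y, hy, hyx, hy1, hym⟩ : ∃ y ∈ Icc (-1:ℝ) 1, V x ≤ V y ∧ V 1 ≤ V y ∧ V (-1) ≤ V y := by
    have h1 : (1:ℝ) ∈ Icc (-1:ℝ) 1 := ⟨by norm_num, by norm_num⟩
    have hm : (-1:ℝ) ∈ Icc (-1:ℝ) 1 := ⟨by norm_num, by norm_num⟩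
    rcases le_total (V 1) (V (-1)) with ha | ha
    · rcases le_total (V x) (V (-1)) with hb' | hb'
      · exact ⟨-1, hm, hb', ha, le_rfl⟩
      · exact ⟨x, hx, le_rfl, ha.trans hb', hb'⟩
    · rcases le_total (V x) (V 1) with hb' | hb'
      · exact ⟨1, h1, hb', le_rfl, ha⟩
      · exact ⟨x, hx, le_rfl, hb', ha.trans hb'⟩
  refine ⟨y, hy, ?_⟩
  -- the reindexed nodes
  have hcard : Fintype.card (Fin (n + 1)) = Fintype.card (Fin N × Bool) := by
    simp only [Fintype.card_fin, Fintype.card_prod, Fintype.card_bool]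
    omega
  let e : Fin (n + 1) ≃ Fin N × Bool := Fintype.equivOfCardEq hcard
  have hz : ∀ i, ‖(zL L ∘ e) i‖ ≤ 1 := fun i => norm_zL hL (e i)
  have hprod : ∀ w : ℂ, ∏ i, (w - (zL L ∘ e) i) = (om (zL L)).eval w := by
    intro w
    rw [← om_comp e (zL L), om, Polynomial.eval_prod]
    simp
  have hfun : (fun w : ℂ => (om (zL L)).eval w * h w) =
      fun w => (∏ i, (w - (zL L ∘ e) i)) * h w := by
    funext w; rw [hprod]
  rw [hfun]
  rw [hfun, hn] at hb
  have hx1 : ‖(x:ℂ)‖ ≤ 1 := by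
    rw [Complex.norm_real, Real.norm_eq_abs]
    exact abs_le.2 ⟨hx.1, hx.2⟩
  have hkey := thmA (z := zL L ∘ e) (k := k' + 1) (d := d) hz (by omega) hd1 hx1 hh hb
    (B := V y) (norm_nonneg _) (by rw [om_comp]; exact hyx) (by
      intro i j
      by_cases hij : i = j
      · subst hij; simp
      · rw [diff_cc _ _ _ hij, norm_mul, omij_comp, norm_sub_rev, mul_comm]
        apply mul_le_mul_of_nonneg_right _ (norm_nonneg _)
        have hT := TineqD hL hd hd1 hG hD hx (i := e i) (j := e j)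
          (fun h => hij (e.injective h))
        have h1 : ‖(hasseDeriv (k' + 1) (om (zL L))).eval 1‖ ≤ V y := by
          have := hy1
          simp only [hV] at this ⊢
          simpa using this
        have h2 : ‖(hasseDeriv (k' + 1) (om (zL L))).eval (-1)‖ ≤ V y := by
          have := hym
          simp only [hV] at this ⊢
          simpa using this
        refine hT.trans ?_
        have hd0 : (0:ℝ) ≤ d := by positivity
        have h3 : θ * ‖(hasseDeriv (k' + 1) (om (zL L))).eval 1‖ +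
            (1 - θ) * ‖(hasseDeriv (k' + 1) (om (zL L))).eval (-1)‖ ≤ V y := by
          have h4 := mul_le_mul_of_nonneg_left h1 hθ0
          have h5 := mul_le_mul_of_nonneg_left h2 (sub_nonneg.2 hθ1)
          linarith
        have h6 := mul_le_mul_of_nonneg_left h3 (show (0:ℝ) ≤ d / 2 by linarith)
        linarith)
  refine hkey.trans (le_of_eq ?_)
  rw [iter_hasse, norm_mul, Complex.norm_natCast, ← hn]
  simp only [hV]
  ring

/-- The threshold (sum over the pairs). -/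
noncomputable def bal (k : ℕ) : ℝ :=
  if k = 1 then 3 / 2 else if k = 2 then 2 else if k = 3 then 3 else if k = 4 then 3 else k - 2

/-- The binomial inequalities for the order `k`, `2k + 2 ≤ 2N`, with the linear compensation that
vanishes at the mean `2N - bal k`. -/
theorem good_bal {N k : ℕ} (hk1 : 1 ≤ k) (hkN : 2 * k + 2 ≤ 2 * N) :
    ∃ θ lam : ℝ, 0 ≤ θ ∧ θ ≤ 1 ∧ 0 ≤ lam ∧
      GoodAll (2 * N) (2 * N - k) θ (Dl lam (2 * N - bal k)) := by
  have hcases : k = 1 ∨ k = 2 ∨ k = 3 ∨ k = 4 ∨ 5 ≤ k := by omega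
  rcases hcases with rfl | rfl | rfl | rfl | hk
  · obtain ⟨d, hd⟩ : ∃ d, 2 * N = d + 1 := ⟨2 * N - 1, by omega⟩
    have hd3 : 3 ≤ d := by omega
    have hdr : (2:ℝ) * N = (d : ℝ) + 1 := by exact_mod_cast hd
    refine ⟨1, 4 / d, zero_le_one, le_rfl, by positivity, ?_⟩
    have e : Dl (4 / (d : ℝ)) (2 * N - bal 1) = D1 d := by
      unfold D1 bal
      rw [hdr, if_pos rfl]
      congr 1
      ring
    rw [e, hd, show d + 1 - 1 = d by omega]
    constructor
    · rw [show d + 1 - 2 = d - 1 by omega]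
      exact good1_one hd3
    · rw [show d + 1 - 2 = d - 1 by omega]
      intro J hJ
      exact good2_one hd3 J (by omega)
  · obtain ⟨d, hd⟩ : ∃ d, 2 * N = d + 2 := ⟨2 * N - 2, by omega⟩
    have hd3 : 4 ≤ d := by omega
    have hdr : (2:ℝ) * N = (d : ℝ) + 2 := by exact_mod_cast hd
    refine ⟨1, 1, zero_le_one, le_rfl, zero_le_one, ?_⟩
    have e : Dl 1 (2 * N - bal 2) = D2 d := by
      unfold D2 bal
      rw [hdr, if_neg (by norm_num), if_pos rfl]
      congr 1
      ring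
    rw [e, hd, show d + 2 - 2 = d by omega]
    refine ⟨?_, ?_⟩
    · rw [show d + 2 - 2 = d by omega]
      exact good1_two hd3
    · rw [show d + 2 - 2 = d by omega]
      intro J hJ
      exact good2_two hd3 J (by omega)
  · obtain ⟨d, hd⟩ : ∃ d, 2 * N = d + 3 := ⟨2 * N - 3, by omega⟩
    have hd3 : 5 ≤ d := by omega
    have hdr : (2:ℝ) * N = (d : ℝ) + 3 := by exact_mod_cast hd
    refine ⟨1, 1, zero_le_one, le_rfl, zero_le_one, ?_⟩
    have e : Dl 1 (2 * N - bal 3) = D2 d := by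
      unfold D2 bal
      rw [hdr, if_neg (by norm_num), if_neg (by norm_num), if_pos rfl]
      congr 1
      ring
    rw [e, hd, show d + 3 - 3 = d by omega]
    refine ⟨?_, ?_⟩
    · rw [show d + 3 - 2 = d + 1 by omega]
      exact good1_three hd3
    · rw [show d + 3 - 2 = d + 1 by omega]
      intro J hJ
      exact good2_three hd3 J (by omega)
  · obtain ⟨d, hd⟩ : ∃ d, 2 * N = d + 4 := ⟨2 * N - 4, by omega⟩
    have hd3 : 6 ≤ d := by omega
    have hdr : (2:ℝ) * N = (d : ℝ) + 4 := by exact_mod_cast hd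
    refine ⟨1 / 2, (d : ℝ) / 2, by norm_num, by norm_num, by positivity, ?_⟩
    have e : Dl ((d : ℝ) / 2) (2 * N - bal 4) = DG d 1 := by
      unfold DG bal
      rw [hdr, if_neg (by norm_num), if_neg (by norm_num), if_neg (by norm_num), if_pos rfl]
      congr 1
      ring
    rw [e, hd, show d + 4 - 4 = d by omega]
    refine ⟨good1_gen le_rfl le_rfl (by omega), ?_⟩
    intro J hJ
    exact good2_four hd3 J (by omega)
  · obtain ⟨d, hd⟩ : ∃ d, 2 * N = d + k := ⟨2 * N - k, by omega⟩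
    have hkd : k + 2 ≤ d := by omega
    have hdr : (2:ℝ) * N = (d : ℝ) + k := by exact_mod_cast hd
    refine ⟨1 / 2, (d : ℝ) / 2, by norm_num, by norm_num, by positivity, ?_⟩
    have e : Dl ((d : ℝ) / 2) (2 * N - bal k) = DG d 2 := by
      unfold DG bal
      rw [hdr, if_neg (by omega), if_neg (by omega), if_neg (by omega), if_neg (by omega)]
      congr 1
      ring
    rw [e, hd, show d + k - k = d by omega]
    refine ⟨good1_gen (by norm_num) (by omega) hkd, ?_⟩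
    intro J hJ
    exact good2_five (r := N - 2) hk hkd (by omega) J hJ

/-- Unbalanced lists: the bound of order `k` at every point of `[-1, 1]`. -/
theorem pointwise_unbal {N : ℕ} {L : Fin N → ℂ} (hL : ∀ a, ‖L a‖ ≤ 1) {k : ℕ}
    (hk1 : 1 ≤ k) (hkN : 2 * k + 2 ≤ 2 * N)
    (hS : ∑ a, (1 + (L a).re) ≤ bal k ∨ ∑ a, (1 - (L a).re) ≤ bal k)
    {h : ℂ → ℂ} (hh : Differentiable ℂ h)
    (hb : ∀ w, ‖w‖ ≤ 1 → ‖iteratedDeriv (2 * N) (fun w => (om (zL L)).eval w * h w) w‖ ≤ 1)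
    {x : ℝ} (hx : x ∈ Icc (-1:ℝ) 1) :
    ∃ y ∈ Icc (-1:ℝ) 1, ‖iteratedDeriv k (fun w => (om (zL L)).eval w * h w) (x:ℂ)‖ ≤
      (1 / ((2 * N).factorial : ℝ)) * ‖iteratedDeriv k (fun w => (om (zL L)).eval w) (y:ℂ)‖ := by
  obtain ⟨θ, lam, h0, h1, hlam, hG⟩ := good_bal hk1 hkN
  rcases hS with hS | hS
  · rw [Finset.sum_add_distrib] at hS
    simp only [Finset.sum_const, Finset.card_univ, Fintype.card_fin, nsmul_eq_mul, mul_one] at hS
    refine pointwiseD hL (by omega) hk1 (by omega) h0 h1 hG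
      ⟨lam * (2 * N - bal k), -lam, fun s _ => by unfold Dl; ring, ?_⟩ hh hb hx
    have : lam * (2 * N - bal k) + -lam * (N - ∑ a, (L a).re) =
        lam * ((N + ∑ a, (L a).re) - bal k) := by ring
    rw [this]
    exact mul_nonpos_of_nonneg_of_nonpos hlam (by linarith)
  · rw [Finset.sum_sub_distrib] at hS
    simp only [Finset.sum_const, Finset.card_univ, Fintype.card_fin, nsmul_eq_mul, mul_one] at hS
    have hG' := hG.refl (by omega)
    refine pointwiseD hL (by omega) hk1 (by omega) (by linarith) (by linarith) hG'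
      ⟨lam * (2 * N - bal k) - lam * (2 * N), lam, fun s hs => ?_, ?_⟩ hh hb hx
    · show Dl lam (2 * N - bal k) (2 * N - s) = _
      unfold Dl
      rw [Nat.cast_sub hs]
      push_cast
      ring
    · have : lam * (2 * N - bal k) - lam * (2 * N) + lam * (N - ∑ a, (L a).re) =
        lam * ((N - ∑ a, (L a).re) - bal k) := by ring
      rw [this]
      exact mul_nonpos_of_nonneg_of_nonpos hlam (by linarith)

end Pool.Agent.HHalfB
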