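import Pool.Agent.HHalfB.BGen

/-!
# The inequalities for `k ≥ 4`: the middle cases
-/

set_option autoImplicit false

namespace Pool.Agent.HHalfB

open Pool.Agent.HHalf

/-- The case `J = k - 2`. -/
theorem cLm {d k J : ℕ} {δ : ℝ} (hδ : 1 ≤ δ) (hk : 4 ≤ k) (hkd : k + 2 ≤ d) (hJ : J + 2 = k) :
    ∃ τ, Five (fun p => Vm (d + k - 2) (d - 1) (J + p))
      (fun s => Gf (d + k) d (1 / 2) (DG d δ) (J + s)) τ := by
  have hx : (6:ℝ) ≤ (d : ℝ) := by exact_mod_cast (show 6 ≤ d by omega)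
  have hJd : (J : ℝ) + 4 ≤ d := by exact_mod_cast (show J + 4 ≤ d by omega)
  have hn : ∀ m : ℕ, (0:ℝ) ≤ ((m.choose d : ℕ) : ℝ) := fun m => Nat.cast_nonneg _
  have v0 : Vm (d + k - 2) (d - 1) (J + 0) = (d : ℝ) := by
    rw [vm_left (by omega) (by omega)]; exact e1 (by omega) (by omega)
  have v1 : Vm (d + k - 2) (d - 1) (J + 1) = 1 := vm_mid (by omega) (by omega)
  have v2 : Vm (d + k - 2) (d - 1) (J + 2) = 1 := vm_mid (by omega) (by omega)
  have g0 := GG_lo (n := d + k) (d := d) (s := J + 0) (δ := δ) (t := 5) (by push_cast; linarith)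
    (hn _) (hn _)
  have g1 := GG_lo (n := d + k) (d := d) (s := J + 1) (δ := δ) (t := 4) (by push_cast; linarith)
    (hn _) (hn _)
  have g2 := GG_lo (n := d + k) (d := d) (s := J + 2) (δ := δ) (t := 3) (by push_cast; linarith)
    (hn _) (hn _)
  have g3 := GG_lo (n := d + k) (d := d) (s := J + 3) (δ := δ) (t := 2) (by push_cast; linarith)
    (hn _) (hn _)
  have g4 := GG_lo (n := d + k) (d := d) (s := J + 4) (δ := δ) (t := 1) (by push_cast; linarith)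
    (hn _) (hn _)
  refine five_of (τ := 1) (W := 1) v0 v1 v2 g0 g1 g2 g3 g4 one_pos (by rw [div_one])
    ?_ ?_ ?_ ?_ ?_
  all_goals nlinarith

/-- The cases `k - 1 ≤ J ≤ d - 3`. -/
theorem cM {d k J : ℕ} {δ : ℝ} (hδ : 1 ≤ δ) (hk : 4 ≤ k) (hkd : k + 2 ≤ d) (hJ : k ≤ J + 1)
    (hJ2 : J + 3 ≤ d) :
    ∃ τ, Five (fun p => Vm (d + k - 2) (d - 1) (J + p))
      (fun s => Gf (d + k) d (1 / 2) (DG d δ) (J + s)) τ := by
  have hx : (6:ℝ) ≤ (d : ℝ) := by exact_mod_cast (show 6 ≤ d by omega)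
  have hJd : (J : ℝ) + 3 ≤ d := by exact_mod_cast hJ2
  have hn : ∀ m : ℕ, (0:ℝ) ≤ ((m.choose d : ℕ) : ℝ) := fun m => Nat.cast_nonneg _
  have v0 : Vm (d + k - 2) (d - 1) (J + 0) = 1 := vm_mid (by omega) (by omega)
  have v1 : Vm (d + k - 2) (d - 1) (J + 1) = 1 := vm_mid (by omega) (by omega)
  have v2 : Vm (d + k - 2) (d - 1) (J + 2) = 1 := vm_mid (by omega) (by omega)
  have g0 := GG_lo (n := d + k) (d := d) (s := J + 0) (δ := δ) (t := 4) (by push_cast; linarith)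
    (hn _) (hn _)
  have g1 := GG_lo (n := d + k) (d := d) (s := J + 1) (δ := δ) (t := 3) (by push_cast; linarith)
    (hn _) (hn _)
  have g2 := GG_lo (n := d + k) (d := d) (s := J + 2) (δ := δ) (t := 2) (by push_cast; linarith)
    (hn _) (hn _)
  have g3 := GG_lo (n := d + k) (d := d) (s := J + 3) (δ := δ) (t := 1) (by push_cast; linarith)
    (hn _) (hn _)
  have g4 : (2:ℝ) ≤ Gf (d + k) d (1 / 2) (DG d δ) (J + 4) := by
    rcases eq_or_lt_of_le hJ2 with h | h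
    · have c1 : (((J + 4).choose d : ℕ) : ℝ) = (d : ℝ) + 1 := by
        rw [show J + 4 = d + 1 by omega, ch1]
      have h4 := GG_lo (n := d + k) (d := d) (s := J + 4) (δ := δ) (t := 0)
        (by push_cast; linarith) c1.ge (hn _)
      nlinarith
    · have hJd' : (J : ℝ) + 4 ≤ d := by exact_mod_cast h
      have h4 := GG_lo (n := d + k) (d := d) (s := J + 4) (δ := δ) (t := 1)
        (by push_cast; linarith) (hn _) (hn _)
      nlinarith
  refine five_of (τ := 1) (W := 1) v0 v1 v2 g0 g1 g2 g3 g4 one_pos (by rw [div_one])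
    ?_ ?_ ?_ ?_ ?_
  all_goals nlinarith

/-- The case `J = d - 2`. -/
theorem cR2 {d k J : ℕ} {δ : ℝ} (hδ : 1 ≤ δ) (hk : 4 ≤ k) (hkd : k + 2 ≤ d) (hJ : J + 2 = d) :
    ∃ τ, Five (fun p => Vm (d + k - 2) (d - 1) (J + p))
      (fun s => Gf (d + k) d (1 / 2) (DG d δ) (J + s)) τ := by
  have hx : (6:ℝ) ≤ (d : ℝ) := by exact_mod_cast (show 6 ≤ d by omega)
  have hJd : (J : ℝ) + 2 = d := by exact_mod_cast hJ
  have hn : ∀ m : ℕ, (0:ℝ) ≤ ((m.choose d : ℕ) : ℝ) := fun m => Nat.cast_nonneg _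
  have v0 : Vm (d + k - 2) (d - 1) (J + 0) = 1 := vm_mid (by omega) (by omega)
  have v1 : Vm (d + k - 2) (d - 1) (J + 1) = 1 := vm_mid (by omega) (by omega)
  have v2 : Vm (d + k - 2) (d - 1) (J + 2) = d := by
    rw [vm_right (by omega) (by omega)]; exact e1 (by omega) (by omega)
  have c0 : (((J + 2).choose d : ℕ) : ℝ) = 1 := by rw [hJ, ch0]
  have c1 : (((J + 3).choose d : ℕ) : ℝ) = (d : ℝ) + 1 := by
    rw [show J + 3 = d + 1 by omega, ch1]
  have c2 : (((J + 4).choose d : ℕ) : ℝ) = ((d : ℝ) + 1) * (d + 2) / 2 := by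
    rw [show J + 4 = d + 2 by omega, ch2]
  have g0 := GG_lo (n := d + k) (d := d) (s := J + 0) (δ := δ) (t := 3) (by push_cast; linarith)
    (hn _) (hn _)
  have g1 := GG_lo (n := d + k) (d := d) (s := J + 1) (δ := δ) (t := 2) (by push_cast; linarith)
    (hn _) (hn _)
  have g2 := GG_lo (n := d + k) (d := d) (s := J + 2) (δ := δ) (t := 1) (by push_cast; linarith)
    c0.ge (hn _)
  have g3 := GG_lo (n := d + k) (d := d) (s := J + 3) (δ := δ) (t := 0) (by push_cast; linarith)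
    c1.ge (hn _)
  have g4 := GG_lo (n := d + k) (d := d) (s := J + 4) (δ := δ) (t := -1) (by push_cast; linarith)
    c2.ge (hn _)
  refine five_of (τ := 1) (W := 1) v0 v1 v2 g0 g1 g2 g3 g4 one_pos (by rw [div_one])
    ?_ ?_ ?_ ?_ ?_
  all_goals
    obtain ⟨y, hy, hxy⟩ : ∃ y : ℝ, 0 ≤ y ∧ (d : ℝ) = y + 6 := ⟨d - 6, by linarith, by ring⟩
    rw [hxy, ← sub_nonneg]
    ring_nf
    positivity

/-- The case `J = d - 1`. -/
theorem cR1 {d k J : ℕ} {δ : ℝ} (hδ : 1 ≤ δ) (hk : 4 ≤ k) (hkd : k + 2 ≤ d) (hJ : J + 1 = d) :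
    ∃ τ, Five (fun p => Vm (d + k - 2) (d - 1) (J + p))
      (fun s => Gf (d + k) d (1 / 2) (DG d δ) (J + s)) τ := by
  have hx : (6:ℝ) ≤ (d : ℝ) := by exact_mod_cast (show 6 ≤ d by omega)
  have hJd : (J : ℝ) + 1 = d := by exact_mod_cast hJ
  have hn : ∀ m : ℕ, (0:ℝ) ≤ ((m.choose d : ℕ) : ℝ) := fun m => Nat.cast_nonneg _
  have v0 : Vm (d + k - 2) (d - 1) (J + 0) = 1 := vm_mid (by omega) (by omega)
  have v1 : Vm (d + k - 2) (d - 1) (J + 1) = d := by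
    rw [vm_right (by omega) (by omega)]; exact e1 (by omega) (by omega)
  have v2 : Vm (d + k - 2) (d - 1) (J + 2) = (d : ℝ) * (d + 1) / 2 := by
    rw [vm_right (by omega) (by omega)]; exact e2 (by omega) (by omega)
  have c0 : (((J + 1).choose d : ℕ) : ℝ) = 1 := by rw [hJ, ch0]
  have c1 : (((J + 2).choose d : ℕ) : ℝ) = (d : ℝ) + 1 := by
    rw [show J + 2 = d + 1 by omega, ch1]
  have c2 : (((J + 3).choose d : ℕ) : ℝ) = ((d : ℝ) + 1) * (d + 2) / 2 := by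
    rw [show J + 3 = d + 2 by omega, ch2]
  have c3 : (((J + 4).choose d : ℕ) : ℝ) = ((d : ℝ) + 1) * (d + 2) * (d + 3) / 6 := by
    rw [show J + 4 = d + 3 by omega, ch3]
  have g0 := GG_lo (n := d + k) (d := d) (s := J + 0) (δ := δ) (t := 2) (by push_cast; linarith)
    (hn _) (hn _)
  have g1 := GG_lo (n := d + k) (d := d) (s := J + 1) (δ := δ) (t := 1) (by push_cast; linarith)
    c0.ge (hn _)
  have g2 := GG_lo (n := d + k) (d := d) (s := J + 2) (δ := δ) (t := 0) (by push_cast; linarith)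
    c1.ge (hn _)
  have g3 := GG_lo (n := d + k) (d := d) (s := J + 3) (δ := δ) (t := -1) (by push_cast; linarith)
    c2.ge (hn _)
  have g4 := GG_lo (n := d + k) (d := d) (s := J + 4) (δ := δ) (t := -2) (by push_cast; linarith)
    c3.ge (hn _)
  refine five_of (τ := 1) (W := (d : ℝ)) v0 v1 v2 g0 g1 g2 g3 g4 one_pos (by rw [div_one])
    ?_ ?_ ?_ ?_ ?_
  all_goals
    obtain ⟨y, hy, hxy⟩ : ∃ y : ℝ, 0 ≤ y ∧ (d : ℝ) = y + 6 := ⟨d - 6, by linarith, by ring⟩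
    rw [hxy, ← sub_nonneg]
    ring_nf
    positivity

/-- The case `J = d`. -/
theorem cR0 {d k J : ℕ} {δ : ℝ} (hδ : 1 ≤ δ) (hk : 4 ≤ k) (hkd : k + 2 ≤ d) (hJ : J = d) :
    ∃ τ, Five (fun p => Vm (d + k - 2) (d - 1) (J + p))
      (fun s => Gf (d + k) d (1 / 2) (DG d δ) (J + s)) τ := by
  have hx : (6:ℝ) ≤ (d : ℝ) := by exact_mod_cast (show 6 ≤ d by omega)
  have hJd : (J : ℝ) = d := by exact_mod_cast hJ
  have hn : ∀ m : ℕ, (0:ℝ) ≤ ((m.choose d : ℕ) : ℝ) := fun m => Nat.cast_nonneg _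
  have v0 : Vm (d + k - 2) (d - 1) (J + 0) = d := by
    rw [vm_right (by omega) (by omega)]; exact e1 (by omega) (by omega)
  have v1 : Vm (d + k - 2) (d - 1) (J + 1) = (d : ℝ) * (d + 1) / 2 := by
    rw [vm_right (by omega) (by omega)]; exact e2 (by omega) (by omega)
  have v2 : Vm (d + k - 2) (d - 1) (J + 2) = (d : ℝ) * (d + 1) * (d + 2) / 6 := by
    rw [vm_right (by omega) (by omega)]; exact e3 (by omega) (by omega)
  have c0 : (((J + 0).choose d : ℕ) : ℝ) = 1 := by rw [Nat.add_zero, hJ, ch0]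
  have c1 : (((J + 1).choose d : ℕ) : ℝ) = (d : ℝ) + 1 := by rw [hJ, ch1]
  have c2 : (((J + 2).choose d : ℕ) : ℝ) = ((d : ℝ) + 1) * (d + 2) / 2 := by rw [hJ, ch2]
  have c3 : (((J + 3).choose d : ℕ) : ℝ) = ((d : ℝ) + 1) * (d + 2) * (d + 3) / 6 := by
    rw [hJ, ch3]
  have c4 : (((J + 4).choose d : ℕ) : ℝ) = ((d : ℝ) + 1) * (d + 2) * (d + 3) * (d + 4) / 24 := by
    rw [hJ, ch4]
  have g0 := GG_lo (n := d + k) (d := d) (s := J + 0) (δ := δ) (t := 1) (by push_cast; linarith)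
    c0.ge (hn _)
  have g1 := GG_lo (n := d + k) (d := d) (s := J + 1) (δ := δ) (t := 0) (by push_cast; linarith)
    c1.ge (hn _)
  have g2 := GG_lo (n := d + k) (d := d) (s := J + 2) (δ := δ) (t := -1) (by push_cast; linarith)
    c2.ge (hn _)
  have g3 := GG_lo (n := d + k) (d := d) (s := J + 3) (δ := δ) (t := -2) (by push_cast; linarith)
    c3.ge (hn _)
  have g4 := GG_lo (n := d + k) (d := d) (s := J + 4) (δ := δ) (t := -3) (by push_cast; linarith)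
    c4.ge (hn _)
  refine five_of (τ := 1 / 2) (W := (d : ℝ) * (d + 1)) v0 v1 v2 g0 g1 g2 g3 g4 (by norm_num)
    (le_of_eq (by ring)) ?_ ?_ ?_ ?_ ?_
  all_goals
    obtain ⟨y, hy, hxy⟩ : ∃ y : ℝ, 0 ≤ y ∧ (d : ℝ) = y + 6 := ⟨d - 6, by linarith, by ring⟩
    rw [hxy, ← sub_nonneg]
    ring_nf
    positivity

end Pool.Agent.HHalfB
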