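import Pool.Agent.HHalf.CNodes

/-!
# Mass and mean of a mixture of `(X+1)^J (X-1)^(n-J)`
-/

set_option autoImplicit false

namespace Pool.Agent.HHalfB

open Polynomial Set Complex ComplexConjugate Pool.Agent.HHalf

theorem bb_monic {n J : ℕ} : (bb ℂ n J).Monic := by
  unfold bb
  have h1 : (X + 1 : ℂ[X]).Monic := by
    have := monic_X_add_C (1:ℂ)
    rwa [C_1] at this
  have h2 : (X - 1 : ℂ[X]).Monic := by
    have := monic_X_sub_C (1:ℂ)
    rwa [C_1] at this
  exact (h1.pow _).mul (h2.pow _)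

theorem bb_natDegree {n J : ℕ} (hJ : J ≤ n) : (bb ℂ n J).natDegree = n := by
  unfold bb
  have h1 : (X + 1 : ℂ[X]).Monic := by
    have := monic_X_add_C (1:ℂ)
    rwa [C_1] at this
  have h2 : (X - 1 : ℂ[X]).Monic := by
    have := monic_X_sub_C (1:ℂ)
    rwa [C_1] at this
  have d1 : (X + 1 : ℂ[X]).natDegree = 1 := by
    have := natDegree_X_add_C (1:ℂ)
    rwa [C_1] at this
  have d2 : (X - 1 : ℂ[X]).natDegree = 1 := by
    have := natDegree_X_sub_C (1:ℂ)
    rwa [C_1] at this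
  rw [(h1.pow J).natDegree_mul (h2.pow _), h1.natDegree_pow, h2.natDegree_pow, d1, d2]
  omega

theorem bb_coeff_top {n J : ℕ} (hJ : J ≤ n) : (bb ℂ n J).coeff n = 1 := by
  have h := (bb_monic (n := n) (J := J)).coeff_natDegree
  rwa [bb_natDegree hJ] at h

theorem bb_coeff_pred {n J : ℕ} (hJ : J ≤ n) (hn : 1 ≤ n) :
    (bb ℂ n J).coeff (n - 1) = 2 * (J : ℂ) - n := by
  have h1 : (X + 1 : ℂ[X]).Monic := by
    have := monic_X_add_C (1:ℂ)
    rwa [C_1] at this
  have h2 : (X - 1 : ℂ[X]).Monic := by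
    have := monic_X_sub_C (1:ℂ)
    rwa [C_1] at this
  have c1 : (X + 1 : ℂ[X]).nextCoeff = 1 := by
    have := nextCoeff_X_add_C (1:ℂ)
    rwa [C_1] at this
  have c2 : (X - 1 : ℂ[X]).nextCoeff = -1 := by
    have := nextCoeff_X_sub_C (1:ℂ)
    rwa [C_1] at this
  have h3 : (bb ℂ n J).nextCoeff = 2 * (J : ℂ) - n := by
    unfold bb
    rw [(h1.pow J).nextCoeff_mul (h2.pow _), h1.nextCoeff_pow, h2.nextCoeff_pow, c1, c2]
    rw [nsmul_eq_mul, nsmul_eq_mul, Nat.cast_sub hJ]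
    ring
  rw [← h3, nextCoeff_of_natDegree_pos (by rw [bb_natDegree hJ]; omega), bb_natDegree hJ]

theorem mean_mix {β : Type*} (S : Finset β) (a : β → ℝ) (J : β → ℕ) {n : ℕ}
    (hJ : ∀ b ∈ S, J b ≤ n) (hn : 1 ≤ n) {q : ℂ[X]} {t : ℝ} (h0 : q.coeff n = 1)
    (h1 : q.coeff (n - 1) = (t : ℂ))
    (h : q = ∑ b ∈ S, C (a b : ℂ) * bb ℂ n (J b)) :
    ∑ b ∈ S, a b = 1 ∧ ∑ b ∈ S, a b * (J b : ℝ) = (n + t) / 2 := by
  have e0 : ∑ b ∈ S, a b = 1 := by
    have h2 := congrArg (fun p : ℂ[X] => p.coeff n) h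
    simp only [finsetSum_coeff, coeff_C_mul] at h2
    rw [h0] at h2
    have h3 : ((∑ b ∈ S, a b : ℝ) : ℂ) = 1 := by
      rw [h2]
      push_cast
      refine Finset.sum_congr rfl fun b hb => ?_
      rw [bb_coeff_top (hJ b hb), mul_one]
    exact_mod_cast h3
  refine ⟨e0, ?_⟩
  have h2 := congrArg (fun p : ℂ[X] => p.coeff (n - 1)) h
  simp only [finsetSum_coeff, coeff_C_mul] at h2
  rw [h1] at h2
  have h3 : (t : ℂ) = ((∑ b ∈ S, a b * (2 * (J b : ℝ) - n) : ℝ) : ℂ) := by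
    rw [h2]
    push_cast
    refine Finset.sum_congr rfl fun b hb => ?_
    rw [bb_coeff_pred (hJ b hb) hn]
  have h4 : t = ∑ b ∈ S, a b * (2 * (J b : ℝ) - n) := by exact_mod_cast h3
  have h5 : ∑ b ∈ S, a b * (2 * (J b : ℝ) - n) =
      2 * ∑ b ∈ S, a b * (J b : ℝ) - n * ∑ b ∈ S, a b := by
    rw [Finset.mul_sum, Finset.mul_sum, ← Finset.sum_sub_distrib]
    refine Finset.sum_congr rfl fun b _ => ?_
    ring
  rw [h5, e0] at h4
  linarith

/-- Coefficients of `ω` for the list `L, conj L`. -/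
theorem om_coeff {N : ℕ} (L : Fin N → ℂ) (hN : 1 ≤ N) :
    (om (zL L)).coeff (2 * N) = 1 ∧
      (om (zL L)).coeff (2 * N - 1) = ((-(2 * ∑ a, (L a).re) : ℝ) : ℂ) := by
  have hcard : (Finset.univ : Finset (Fin N × Bool)).card = 2 * N := by
    simp [Finset.card_univ, mul_comm]
  constructor
  · have hm : (om (zL L)).Monic := monic_prod_of_monic _ _ fun i _ => monic_X_sub_C _
    have hd : (om (zL L)).natDegree = 2 * N := by
      unfold om
      rw [natDegree_prod_of_monic _ _ fun i _ => monic_X_sub_C _]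
      simp [mul_comm]
    have := hm.coeff_natDegree
    rwa [hd] at this
  · have h := prod_X_sub_C_coeff_card_pred (Finset.univ : Finset (Fin N × Bool)) (zL L)
      (by rw [hcard]; omega)
    rw [hcard] at h
    unfold om
    rw [h, Fintype.sum_prod_type]
    have h2 : ∀ a : Fin N, ∑ b : Bool, zL L (a, b) = ((2 * (L a).re : ℝ) : ℂ) := by
      intro a
      rw [Fintype.sum_bool]
      simp only [zL, if_true]
      have h3 : (if (false : Bool) = true then conj (L a) else L a) = L a := by simp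
      rw [h3, add_comm, Complex.add_conj]
    simp only [h2]
    push_cast
    rw [Finset.mul_sum]

end Pool.Agent.HHalfB
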