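import Pool.Agent.HHalf.TOne
import Pool.Agent.HHalfB.BMid

/-!
# Both nodes of one pair omitted
-/

set_option autoImplicit false

namespace Pool.Agent.HHalfB

open Polynomial Set Complex ComplexConjugate Pool.Agent.HHalf

/-- The right side. -/
noncomputable def Gf (n d : ℕ) (θ : ℝ) (D : ℕ → ℝ) (s : ℕ) : ℝ :=
  d * (θ * (s.choose d : ℝ) + (1 - θ) * ((n - s).choose d : ℝ) + D s)

/-- The collected sum of the right sides. -/
theorem collect {β : Type*} (S : Finset β) (a : β → ℝ) (ha : ∀ b ∈ S, 0 ≤ a b) (J : β → ℕ)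
    {n m d : ℕ} (hJ : ∀ b ∈ S, J b ≤ n) (hm : m ≤ n) (hd : n - m = d) (hd1 : 1 ≤ d)
    (θ : ℝ) (D : ℕ → ℝ) :
    2 ^ (d - 1) * ∑ b ∈ S, a b * Gf n d θ D (J b) =
      d / 2 * (θ * ‖(hasseDeriv m (∑ b ∈ S, C (a b : ℂ) * bb ℂ n (J b))).eval 1‖ +
        (1 - θ) * ‖(hasseDeriv m (∑ b ∈ S, C (a b : ℂ) * bb ℂ n (J b))).eval (-1)‖) +
      2 ^ (d - 1) * d * ∑ b ∈ S, a b * D (J b) := by
  rw [end_one S a ha J hJ hm, end_neg_one S a ha J hJ hm, hd]
  have hpow : (2:ℝ) ^ d = 2 * 2 ^ (d - 1) := by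
    obtain ⟨e, rfl⟩ : ∃ e, d = e + 1 := ⟨d - 1, by omega⟩
    rw [Nat.add_sub_cancel, pow_succ]
    ring
  rw [hpow]
  have e1 : ∑ b ∈ S, a b * Gf n d θ D (J b) =
      d * (θ * ∑ b ∈ S, a b * ((J b).choose d : ℝ) +
        (1 - θ) * ∑ b ∈ S, a b * ((n - J b).choose d : ℝ) + ∑ b ∈ S, a b * D (J b)) := by
    rw [Finset.mul_sum, Finset.mul_sum, ← Finset.sum_add_distrib, ← Finset.sum_add_distrib,
      Finset.mul_sum]
    refine Finset.sum_congr rfl fun b _ => ?_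
    rw [Gf]
    ring
  rw [e1]
  ring

theorem T1' {l k d : ℕ} {P : ℕ → ℝ} (hP : ∀ J, 0 ≤ P J) {z : ℂ} (hz : ‖z‖ ≤ 1)
    (hkd : k + 1 + d = l + 2) (hd1 : 1 ≤ d) {θ : ℝ} {D : ℕ → ℝ}
    (hG : ∀ J ≤ l, ∀ p ≤ 2, Vm l (d - 1) J ≤ Gf (l + 2) d θ D (J + p))
    {x : ℝ} (hx : x ∈ Icc (-1:ℝ) 1) :
    ‖(hasseDeriv k (mix l P)).eval (x : ℂ)‖ ≤ d / 2 *
      (θ * ‖(hasseDeriv (k + 1) (mix l P * ((X - C z) * (X - C (conj z))))).eval 1‖ +
       (1 - θ) * ‖(hasseDeriv (k + 1) (mix l P * ((X - C z) * (X - C (conj z))))).eval (-1)‖) +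
      2 ^ (d - 1) * d * ∑ b ∈ Finset.range (l + 1) ×ˢ Finset.range 3,
        P b.1 * pz z b.2 * D (b.1 + b.2) := by
  have hpz := pz_nonneg hz
  have ha : ∀ b ∈ Finset.range (l + 1) ×ˢ Finset.range 3,
      0 ≤ (fun b : ℕ × ℕ => P b.1 * pz z b.2) b := fun b _ => mul_nonneg (hP _) (hpz _)
  have hJ : ∀ b ∈ Finset.range (l + 1) ×ˢ Finset.range 3,
      (fun b : ℕ × ℕ => b.1 + b.2) b ≤ l + 2 := by
    intro b hb
    have h1 := Finset.mem_range.mp (Finset.mem_product.mp hb).1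
    have h2 := Finset.mem_range.mp (Finset.mem_product.mp hb).2
    show b.1 + b.2 ≤ l + 2
    omega
  have hcol := collect (Finset.range (l + 1) ×ˢ Finset.range 3)
    (fun b : ℕ × ℕ => P b.1 * pz z b.2) ha (fun b : ℕ × ℕ => b.1 + b.2) (n := l + 2) (m := k + 1)
    (d := d) hJ (by omega) (by omega) hd1 θ D
  have hM := mid_all (Finset.range (l + 1)) (fun J => ((P J : ℝ) : ℂ)) (fun J => J)
    (n := l) (m := k)
    (fun b hb => Nat.lt_succ_iff.mp (Finset.mem_range.mp hb)) (by omega) hx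
  have hlk : l - k = d - 1 := by omega
  rw [hlk] at hM
  rw [T1_mix_pair]
  have hcol' : 2 ^ (d - 1) * ∑ b ∈ Finset.range (l + 1) ×ˢ Finset.range 3,
      P b.1 * pz z b.2 * Gf (l + 2) d θ D (b.1 + b.2) = _ := hcol
  have hgoal : ‖(hasseDeriv k (mix l P)).eval (x : ℂ)‖ ≤
      2 ^ (d - 1) * ∑ b ∈ Finset.range (l + 1) ×ˢ Finset.range 3,
        P b.1 * pz z b.2 * Gf (l + 2) d θ D (b.1 + b.2) := by
    refine (show ‖(hasseDeriv k (mix l P)).eval (x : ℂ)‖ ≤ _ from hM).trans ?_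
    refine mul_le_mul_of_nonneg_left ?_ (by positivity)
    rw [Finset.sum_product]
    refine Finset.sum_le_sum fun J hJm => ?_
    have hJl : J ≤ l := Nat.lt_succ_iff.mp (Finset.mem_range.mp hJm)
    rw [Complex.norm_real, Real.norm_eq_abs, abs_of_nonneg (hP J)]
    have h3 : ∑ p ∈ Finset.range 3, pz z p = 1 := by
      rw [Finset.sum_range_succ, Finset.sum_range_succ, Finset.sum_range_succ,
        Finset.sum_range_zero, zero_add]
      exact pz_sum z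
    calc P J * Vm l (d - 1) J = ∑ p ∈ Finset.range 3, P J * pz z p * Vm l (d - 1) J := by
          rw [← Finset.sum_mul, ← Finset.mul_sum, h3, mul_one]
      _ ≤ _ := by
          refine Finset.sum_le_sum fun p hp => ?_
          have hp2 : p ≤ 2 := by
            have := Finset.mem_range.mp hp
            omega
          exact mul_le_mul_of_nonneg_left (hG J hJl p hp2) (mul_nonneg (hP J) (hpz p))
  refine hgoal.trans (le_of_eq ?_)
  rw [hcol']

end Pool.Agent.HHalfB
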