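import Pool.Agent.HHalfB.BSmall

/-!
# The inequalities for `k = 2` and `k = 3` (`θ = 1`, `D(s) = d - s`)
-/

set_option autoImplicit false

namespace Pool.Agent.HHalfB

open Pool.Agent.HHalf

/-- `D(s) = d - s`. -/
noncomputable def D2 (d : ℕ) : ℕ → ℝ := Dl 1 d

theorem G2_val {n d s : ℕ} :
    Gf n d 1 (D2 d) s = d * ((s.choose d : ℝ) + ((d : ℝ) - s)) := by
  unfold Gf D2 Dl
  ring

theorem G2_lt {n d s : ℕ} (j : ℕ) (hs : s + j ≤ d) : (d : ℝ) * j ≤ Gf n d 1 (D2 d) s := by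
  rw [G2_val]
  have h1 : (s : ℝ) + j ≤ d := by exact_mod_cast hs
  have h2 : (0:ℝ) ≤ (s.choose d : ℝ) := Nat.cast_nonneg _
  have h3 : (0:ℝ) ≤ (d : ℝ) := Nat.cast_nonneg _
  refine mul_le_mul_of_nonneg_left ?_ h3
  linarith

theorem G2_lt' {n d s : ℕ} (t : ℝ) (hs : (s : ℝ) + t ≤ d) : (d : ℝ) * t ≤ Gf n d 1 (D2 d) s := by
  rw [G2_val]
  have h2 : (0:ℝ) ≤ (s.choose d : ℝ) := Nat.cast_nonneg _
  have h3 : (0:ℝ) ≤ (d : ℝ) := Nat.cast_nonneg _
  refine mul_le_mul_of_nonneg_left ?_ h3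
  linarith

theorem G2_0 {n d : ℕ} : Gf n d 1 (D2 d) d = d := by
  rw [G2_val, ch0]; ring

theorem G2_1 {n d : ℕ} : Gf n d 1 (D2 d) (d + 1) = d * d := by
  rw [G2_val, ch1]; push_cast; ring

theorem G2_2 {n d : ℕ} :
    Gf n d 1 (D2 d) (d + 2) = d * (((d : ℝ) + 1) * (d + 2) / 2 - 2) := by
  rw [G2_val, ch2]; push_cast; ring

theorem G2_3 {n d : ℕ} :
    Gf n d 1 (D2 d) (d + 3) = d * (((d : ℝ) + 1) * (d + 2) * (d + 3) / 6 - 3) := by
  rw [G2_val, ch3]; push_cast; ring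

/-- `G(s) ≥ d` for all `s ≤ d + 3` (`d ≥ 3`). -/
theorem G2_ge {n d s : ℕ} (hd : 3 ≤ d) (hs : s ≤ d + 3) : (d : ℝ) ≤ Gf n d 1 (D2 d) s := by
  have h3 : (3:ℝ) ≤ (d : ℝ) := by exact_mod_cast hd
  rcases lt_or_ge s d with h | h
  · have := G2_lt (n := n) (d := d) (s := s) 1 (by omega)
    rw [Nat.cast_one, mul_one] at this
    exact this
  · have h' : s = d ∨ s = d + 1 ∨ s = d + 2 ∨ s = d + 3 := by omega
    rcases h' with rfl | rfl | rfl | rfl
    · rw [G2_0]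
    · rw [G2_1]; nlinarith
    · rw [G2_2]
      have : (1:ℝ) ≤ ((d : ℝ) + 1) * (d + 2) / 2 - 2 := by nlinarith
      nlinarith
    · rw [G2_3]
      have h4 : (20:ℝ) ≤ ((d : ℝ) + 1) * (d + 2) := by nlinarith
      have : (1:ℝ) ≤ ((d : ℝ) + 1) * (d + 2) * (d + 3) / 6 - 3 := by nlinarith
      nlinarith

/-- The three right end cases common to `k = 2, 3`. -/
theorem five_R1 {n d l : ℕ} (hd : 3 ≤ d) {J : ℕ} (hJ : J + 2 = d)
    (v0 : Vm l (d - 1) (J + 0) = 1) (v1 : Vm l (d - 1) (J + 1) = 1)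
    (v2 : Vm l (d - 1) (J + 2) = d) :
    ∃ τ, Five (fun p => Vm l (d - 1) (J + p)) (fun s => Gf n d 1 (D2 d) (J + s)) τ := by
  have h3 : (3:ℝ) ≤ (d : ℝ) := by exact_mod_cast hd
  have g0 := G2_ge (n := n) (d := d) (s := J + 0) hd (by omega)
  have g1 := G2_ge (n := n) (d := d) (s := J + 1) hd (by omega)
  have g2 := G2_ge (n := n) (d := d) (s := J + 2) hd (by omega)
  have g3 : Gf n d 1 (D2 d) (J + 3) = d * d := by
    rw [show J + 3 = d + 1 by omega]; exact G2_1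
  have g4 : Gf n d 1 (D2 d) (J + 4) = d * (((d : ℝ) + 1) * (d + 2) / 2 - 2) := by
    rw [show J + 4 = d + 2 by omega]; exact G2_2
  refine ⟨1, one_pos, ?_, ?_, ?_, ?_, ?_⟩
  · simp only [v0, v1]; linarith
  · simp only [v0, v1]; linarith
  · simp only [v0, v1, v2]; linarith
  · simp only [v1, v2, g3]; nlinarith
  · simp only [v1, v2, g4]
    have : (4:ℝ) ≤ ((d : ℝ) + 1) * (d + 2) / 2 - 2 := by nlinarith
    nlinarith

theorem five_mid {n d l : ℕ} (hd : 3 ≤ d) {J : ℕ} (hJ : J + 4 ≤ d + 3)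
    (v0 : Vm l (d - 1) (J + 0) = 1) (v1 : Vm l (d - 1) (J + 1) = 1)
    (v2 : Vm l (d - 1) (J + 2) = 1) :
    ∃ τ, Five (fun p => Vm l (d - 1) (J + p)) (fun s => Gf n d 1 (D2 d) (J + s)) τ := by
  have h3 : (3:ℝ) ≤ (d : ℝ) := by exact_mod_cast hd
  have g0 := G2_ge (n := n) (d := d) (s := J + 0) hd (by omega)
  have g1 := G2_ge (n := n) (d := d) (s := J + 1) hd (by omega)
  have g2 := G2_ge (n := n) (d := d) (s := J + 2) hd (by omega)
  have g3 := G2_ge (n := n) (d := d) (s := J + 3) hd (by omega)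
  have g4 := G2_ge (n := n) (d := d) (s := J + 4) hd (by omega)
  refine ⟨1, one_pos, ?_, ?_, ?_, ?_, ?_⟩
  · simp only [v0, v1]; linarith
  · simp only [v0, v1]; linarith
  · simp only [v0, v1, v2]; linarith
  · simp only [v1, v2]; linarith
  · simp only [v1, v2]; linarith

/-- `k = 2`. -/
theorem good1_two {d : ℕ} (hd : 4 ≤ d) : ∀ J ≤ d, ∀ p ≤ 2,
    Vm d (d - 1) J ≤ Gf (d + 2) d 1 (D2 d) (J + p) := by
  intro J hJ p hp
  have hg := G2_ge (n := d + 2) (d := d) (s := J + p) (by omega) (by omega)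
  refine le_trans ?_ hg
  obtain ⟨e, rfl⟩ : ∃ e, d = e + 1 := ⟨d - 1, by omega⟩
  rw [Nat.add_sub_cancel]
  have h1 : (1:ℝ) ≤ ((e + 1 : ℕ) : ℝ) := by push_cast; linarith [Nat.cast_nonneg (α := ℝ) e]
  rcases Nat.lt_or_ge J 1 with h | h
  · obtain rfl : J = 0 := by omega
    rw [vm_left (by omega) (by omega), Nat.sub_zero, ch1]
    push_cast; rfl
  · rcases Nat.lt_or_ge J (e + 1) with h2 | h2
    · rw [vm_mid (by omega) (by omega)]; exact h1
    · obtain rfl : J = e + 1 := by omega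
      rw [vm_right (by omega) (by omega), ch1]
      push_cast; rfl

theorem good2_two {d : ℕ} (hd : 4 ≤ d) : ∀ J, J + 2 ≤ d →
    ∃ τ, Five (fun p => Vm d (d - 1) (J + p)) (fun s => Gf (d + 2) d 1 (D2 d) (J + s)) τ := by
  intro J hJ
  have h3 : (4:ℝ) ≤ (d : ℝ) := by exact_mod_cast hd
  rcases Nat.lt_or_ge J 1 with h | h
  · obtain rfl : J = 0 := by omega
    have v0 : Vm d (d - 1) (0 + 0) = d := by
      rw [vm_left (by omega) (by omega)]
      obtain ⟨e, rfl⟩ : ∃ e, d = e + 1 := ⟨d - 1, by omega⟩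
      rw [Nat.add_sub_cancel, Nat.add_zero, Nat.sub_zero, ch1]
      push_cast; rfl
    have v1 : Vm d (d - 1) (0 + 1) = 1 := vm_mid (by omega) (by omega)
    have v2 : Vm d (d - 1) (0 + 2) = 1 := vm_mid (by omega) (by omega)
    have g0 := G2_lt (n := d + 2) (d := d) (s := 0 + 0) 3 (by omega)
    have g1 := G2_lt (n := d + 2) (d := d) (s := 0 + 1) 3 (by omega)
    have g2 := G2_lt (n := d + 2) (d := d) (s := 0 + 2) 2 (by omega)
    have g3 := G2_ge (n := d + 2) (d := d) (s := 0 + 3) (by omega) (by omega)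
    have g4 := G2_ge (n := d + 2) (d := d) (s := 0 + 4) (by omega) (by omega)
    push_cast at g0 g1 g2
    refine ⟨1, one_pos, ?_, ?_, ?_, ?_, ?_⟩
    · simp only [v0, v1]; linarith
    · simp only [v0, v1]; linarith
    · simp only [v0, v1, v2]; linarith
    · simp only [v1, v2]; linarith
    · simp only [v1, v2]; linarith
  · rcases Nat.lt_or_ge (J + 2) d with h2 | h2
    · exact five_mid (by omega) (by omega) (vm_mid (by omega) (by omega))
        (vm_mid (by omega) (by omega)) (vm_mid (by omega) (by omega))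
    · refine five_R1 (by omega) (by omega) (vm_mid (by omega) (by omega))
        (vm_mid (by omega) (by omega)) ?_
      rw [vm_right (by omega) (by omega), show J + 2 = d by omega]
      obtain ⟨e, rfl⟩ : ∃ e, d = e + 1 := ⟨d - 1, by omega⟩
      rw [Nat.add_sub_cancel, ch1]
      push_cast; rfl

end Pool.Agent.HHalfB
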